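import Pool.Agent.Helper45.MC.Base

set_option autoImplicit false
set_option linter.unusedSectionVars false
set_option linter.unusedVariables false

namespace Pool.Agent.Helper45.MC

open Finset

/-- the test matching: a path through five blocks and an edge between the other two -/
def m0 : List (Sym2 Pt) := ed [(1, 2), (3, 4), (5, 6), (7, 8), (11, 12)]

/-! ### Boundaries are killed modulo five -/

theorem isM_of_ac {g : Equiv.Perm Pt} {t : List (Sym2 Pt)} (h : IsM Finset.univ (ac g t)) :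
    IsM Finset.univ t := by
  have h1 := isM_univ_ac g⁻¹ h
  rw [ac_ac, inv_mul_cancel] at h1
  have h2 : ac 1 t = t := by
    unfold ac
    conv_rhs => rw [← List.map_id t]
    refine List.map_congr_left fun e _ => ?_
    induction e with
    | h x y => simp
  rwa [h2] at h1

theorem Pq_of_not {y : List (Sym2 Pt) → ℤ} {r : ℕ} (hy : IsC Finset.univ r y)
    {t : List (Sym2 Pt)} (ht : ¬ IsM Finset.univ t) : Pq y t = 0 := by
  unfold Pq
  refine Finset.sum_eq_zero fun q _ => ?_
  rw [hy.zero_of_not fun h => ht (isM_of_ac h)]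
  simp

theorem inW_mkW (a : List (ℕ × ℕ)) (f : List ℕ) : InW (mkW a f) := inW_wr _ _

theorem Pq_of_odd {y : List (Sym2 Pt) → ℤ} (hy : Alt y) {t : List (Sym2 Pt)}
    (a : List (ℕ × ℕ)) (f : List ℕ) (h : sgl (ac (mkW a f) t) t = -1) : Pq y t = 0 := by
  have h1 := sgl_spec _ _ (Pq y) (alt_Pq hy) (by rw [h]; norm_num)
  rw [h, Pq_ac y (inW_mkW a f)] at h1
  linarith

/-- the closed six-edge matching -/
def tc : List (Sym2 Pt) := s(pc 0, pc 9) :: m0

/-- the rotation of order five -/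
def rho : Equiv.Perm Pt := mkW [(0, 1), (1, 2), (2, 3), (3, 4)] []

theorem rho_pow : ∀ x : Pt, (rho * rho * rho * rho * rho) x = x := by
  decide +kernel

theorem rho_order : orderOf rho = 5 := by
  have : Fact (Nat.Prime 5) := ⟨by norm_num⟩
  apply orderOf_eq_prime
  · have h1 : rho ^ 5 = rho * rho * rho * rho * rho := by
      simp only [pow_succ, pow_zero, one_mul]
    rw [h1]
    exact Equiv.ext rho_pow
  · intro h
    have h1 : rho (pc 0) = pc 0 := by rw [h]; rfl
    exact absurd h1 (by decide +kernel)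

theorem sgl_rho : sgl (ac rho tc) tc = 1 := by
  decide +kernel

theorem Pq_tc {y : List (Sym2 Pt) → ℤ} (hy : Alt y) : (5 : ℤ) ∣ Pq y tc := by
  unfold Pq
  refine five_dvd_sum rho rho_order _ fun q => ?_
  have hr : InW rho := inW_mkW _ _
  by_cases h : InW q
  · rw [if_pos h, if_pos ((inW_mul_right hr).2 h)]
    have h1 := sgl_spec (ac rho tc) tc (fun t => y (ac q t)) (hy.map (Sym2.map q))
      (by rw [sgl_rho]; norm_num)
    rw [sgl_rho, one_mul, ac_ac] at h1
    exact h1.symm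
  · rw [if_neg h, if_neg (fun h' => h ((inW_mul_right hr).1 h'))]

/-- the odd symmetries of the five other completions -/
def odds : List ((ℕ × ℕ) × List (ℕ × ℕ) × List ℕ) :=
  [((10, 13), [], [5, 6]),
   ((0, 10), [(0, 2), (3, 5), (4, 6)], [0, 1, 2]),
   ((0, 13), [(0, 2), (3, 6), (4, 5)], [0, 1, 2, 3, 4, 5, 6]),
   ((9, 10), [(0, 6), (1, 5), (2, 4)], [0, 1, 2, 3, 4, 5, 6]),
   ((9, 13), [(0, 5), (1, 6), (2, 4)], [2, 3, 4])]

theorem odds_ok : ∀ p ∈ odds,
    sgl (ac (mkW p.2.1 p.2.2) (s(pc p.1.1, pc p.1.2) :: m0)) (s(pc p.1.1, pc p.1.2) :: m0)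
      = -1 := by
  decide +kernel

/-- the list of all points -/
def pts : List Pt := (List.range 14).map pc

theorem exists_pc : ∀ x : Pt, ∃ c ∈ List.range 14, pc c = x := by
  decide +kernel

theorem mem_pts (x : Pt) : x ∈ pts := List.mem_map.2 (exists_pc x)

theorem completions : ∀ a ∈ pts, ∀ b ∈ pts,
    a = b ∨ (∃ e ∈ m0, a ∈ e) ∨ (∃ e ∈ m0, b ∈ e) ∨ s(a, b) = s(pc 0, pc 9) ∨
      ∃ p ∈ odds, s(a, b) = s(pc p.1.1, pc p.1.2) := by
  decide +kernel

/-- The test functional takes boundaries to multiples of five. -/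
theorem five_dvd_Pq_bd {y : List (Sym2 Pt) → ℤ} {r : ℕ} (hy : IsC Finset.univ r y) :
    (5 : ℤ) ∣ Pq (bd y) m0 := by
  rw [Pq_bd]
  refine Finset.dvd_sum fun x _ => ?_
  induction x with
  | h a b =>
    rcases completions a (mem_pts a) b (mem_pts b) with h | h | h | h | h
    · rw [Pq_of_not hy]
      · exact dvd_zero _
      · intro hM
        rw [isM_cons] at hM
        exact hM.1.1 (by simpa using h)
    · obtain ⟨e, he, hae⟩ := h
      rw [Pq_of_not hy]
      · exact dvd_zero _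
      · intro hM
        rw [isM_cons] at hM
        exact hM.2.1 e he a (by simp) hae
    · obtain ⟨e, he, hae⟩ := h
      rw [Pq_of_not hy]
      · exact dvd_zero _
      · intro hM
        rw [isM_cons] at hM
        exact hM.2.1 e he b (by simp) hae
    · rw [h]
      exact Pq_tc hy.alt
    · obtain ⟨p, hp, h⟩ := h
      rw [h, Pq_of_odd hy.alt p.2.1 p.2.2 (odds_ok p hp)]
      exact dvd_zero _

/-! ### Evaluation on the cycle -/

/-- last part of the walk: the second endpoint of the disjoint edge -/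
def Wk4 (t : List (Sym2 Pt)) (Q : Pt → Pt → Prop) (a b c d e f : Pt) : Prop :=
  ∀ g ∈ pts, s(f, g) ∈ t →
    (g.1 ≠ a.1 ∧ g.1 ≠ b.1 ∧ g.1 ≠ c.1 ∧ g.1 ≠ d.1 ∧ g.1 ≠ e.1 ∧ g.1 ≠ f.1) → Q f g

instance (t : List (Sym2 Pt)) (Q : Pt → Pt → Prop) [∀ f g, Decidable (Q f g)]
    (a b c d e f : Pt) : Decidable (Wk4 t Q a b c d e f) := by
  unfold Wk4
  infer_instance

/-- third part of the walk: a disjoint edge -/
def Wk3 (t : List (Sym2 Pt)) (Q : Pt → Pt → Prop) (a b c d e : Pt) : Prop :=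
  ∀ f ∈ pts, (f.1 ≠ a.1 ∧ f.1 ≠ b.1 ∧ f.1 ≠ c.1 ∧ f.1 ≠ d.1 ∧ f.1 ≠ e.1) → Wk4 t Q a b c d e f

instance (t : List (Sym2 Pt)) (Q : Pt → Pt → Prop) [∀ f g, Decidable (Q f g)]
    (a b c d e : Pt) : Decidable (Wk3 t Q a b c d e) := by
  unfold Wk3
  infer_instance

/-- middle part of the walk -/
def Wk2 (t : List (Sym2 Pt)) (Q : Pt → Pt → Pt → Pt → Prop) (a b c : Pt) : Prop :=
  ∀ d ∈ pts, s(fl c, d) ∈ t → b.1 ≠ d.1 → a.1 ≠ d.1 →
    ∀ e ∈ pts, s(fl d, e) ∈ t → c.1 ≠ e.1 → b.1 ≠ e.1 → a.1 ≠ e.1 → Wk3 t (Q d e) a b c d e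

instance (t : List (Sym2 Pt)) (Q : Pt → Pt → Pt → Pt → Prop)
    [∀ d e f g, Decidable (Q d e f g)] (a b c : Pt) : Decidable (Wk2 t Q a b c) := by
  unfold Wk2
  infer_instance

/-- For every path through five blocks and a disjoint edge between two further blocks in the
list of edges `t`, the predicate `Q` holds for the base points. -/
def Wk (t : List (Sym2 Pt)) (Q : Pt → Pt → Pt → Pt → Pt → Pt → Pt → Prop) : Prop :=
  ∀ a ∈ pts, ∀ b ∈ pts, s(a, b) ∈ t → ∀ c ∈ pts, s(fl b, c) ∈ t → a.1 ≠ c.1 →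
    Wk2 t (Q a b c) a b c

instance (t : List (Sym2 Pt)) (Q : Pt → Pt → Pt → Pt → Pt → Pt → Pt → Prop)
    [∀ a b c d e f g, Decidable (Q a b c d e f g)] : Decidable (Wk t Q) := by
  unfold Wk
  infer_instance

theorem Wk_spec {t : List (Sym2 Pt)} {Q : Pt → Pt → Pt → Pt → Pt → Pt → Pt → Prop}
    (h : Wk t Q) {q : Equiv.Perm Pt} (hq : InW q) (hp : (ac q m0).Perm t) :
    Q (q (pc 1)) (q (pc 2)) (q (pc 4)) (q (pc 6)) (q (pc 8)) (q (pc 11)) (q (pc 12)) := by
  have hm : ∀ e ∈ m0, Sym2.map q e ∈ t := fun e he =>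
    hp.mem_iff.1 (List.mem_map_of_mem he)
  have hf : ∀ (i j : ℕ), pc j = fl (pc i) → q (pc j) = fl (q (pc i)) := by
    intro i j hij
    rw [hij, hq]
  have hb : ∀ (i j : ℕ), (pc i).1 ≠ (pc j).1 → (q (pc i)).1 ≠ (q (pc j)).1 :=
    fun i j hij h => hij (hq.block h)
  have e1 : s(q (pc 1), q (pc 2)) ∈ t := hm s(pc 1, pc 2) (by decide +kernel)
  have e2 : s(q (pc 3), q (pc 4)) ∈ t := hm s(pc 3, pc 4) (by decide +kernel)
  have e3 : s(q (pc 5), q (pc 6)) ∈ t := hm s(pc 5, pc 6) (by decide +kernel)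
  have e4 : s(q (pc 7), q (pc 8)) ∈ t := hm s(pc 7, pc 8) (by decide +kernel)
  have e5 : s(q (pc 11), q (pc 12)) ∈ t := hm s(pc 11, pc 12) (by decide +kernel)
  rw [hf 2 3 (by decide +kernel)] at e2
  rw [hf 4 5 (by decide +kernel)] at e3
  rw [hf 6 7 (by decide +kernel)] at e4
  exact h _ (mem_pts _) _ (mem_pts _) e1 _ (mem_pts _) e2 (hb _ _ (by decide +kernel))
    _ (mem_pts _) e3 (hb _ _ (by decide +kernel)) (hb _ _ (by decide +kernel))
    _ (mem_pts _) e4 (hb _ _ (by decide +kernel)) (hb _ _ (by decide +kernel))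
    (hb _ _ (by decide +kernel))
    _ (mem_pts _) ⟨hb _ _ (by decide +kernel), hb _ _ (by decide +kernel),
    hb _ _ (by decide +kernel), hb _ _ (by decide +kernel), hb _ _ (by decide +kernel)⟩
    _ (mem_pts _) e5 ⟨hb _ _ (by decide +kernel), hb _ _ (by decide +kernel),
    hb _ _ (by decide +kernel), hb _ _ (by decide +kernel), hb _ _ (by decide +kernel),
    hb _ _ (by decide +kernel)⟩

/-- the false predicate -/
def Q0 (a b c d e f g : Pt) : Prop := False

instance (a b c d e f g : Pt) : Decidable (Q0 a b c d e f g) := instDecidableFalse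


theorem Pq_mono_zero {t : List (Sym2 Pt)} (h : Wk t Q0) : Pq (mono t) m0 = 0 := by
  unfold Pq
  refine Finset.sum_eq_zero fun q _ => ?_
  by_cases hq : InW q
  · rw [if_pos hq]
    by_contra hne
    exact Wk_spec h hq (mono_ne_zero _ _ hne)
  · rw [if_neg hq]

theorem Wn_ok : ∀ m ∈ [4, 5, 9, 17, 20], Wk (rp m) Q0 := by
  decide +kernel

theorem iso12 : sgl (ac (mkW [(0, 1), (2, 3), (3, 5), (4, 5)] [1, 3]) (rp 12)) m0 = 1 := by
  decide +kernel

theorem iso13 : sgl (ac (mkW [(0, 2), (2, 4), (3, 5), (4, 5)] [1, 3, 5]) (rp 13)) m0 = 1 := by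
  decide +kernel

theorem Pq_mono_iso {t : List (Sym2 Pt)} (a : List (ℕ × ℕ)) (f : List ℕ)
    (h : sgl (ac (mkW a f) t) m0 = 1) : Pq (mono t) m0 = Pq (mono m0) m0 := by
  have h1 : mono m0 = mono (ac (mkW a f) t) := by
    funext l
    have h2 := sgl_spec _ _ (fun t => mono t l) (alt_mono_left l) (by rw [h]; norm_num)
    rw [h, one_mul] at h2
    exact h2
  conv_rhs => rw [h1]
  rw [Pq_mono_ac (inW_mkW a f)]

/-- the stabiliser of the test matching -/
def stb (b : Bool × Bool) : Equiv.Perm Pt :=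
  mkW ((if b.1 then [(0, 4), (1, 3)] else []) ++ (if b.2 then [(5, 6)] else []))
    ((if b.1 then [0, 1, 2, 3, 4] else []) ++ (if b.2 then [5, 6] else []))

theorem stb_inj : ∀ b b' : Bool × Bool, stb b (pc 1) = stb b' (pc 1) →
    stb b (pc 11) = stb b' (pc 11) → b = b' := by
  decide +kernel

theorem stb_val : ∀ b : Bool × Bool, mono m0 (ac (stb b) m0) = 1 := by
  decide +kernel

theorem inW_stb (b : Bool × Bool) : InW (stb b) := inW_mkW _ _

/-- images of the base points under the stabiliser -/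
def Qs (a b c d e f g : Pt) : Prop := ∃ k : Bool × Bool,
  a = stb k (pc 1) ∧ b = stb k (pc 2) ∧ c = stb k (pc 4) ∧ d = stb k (pc 6) ∧
  e = stb k (pc 8) ∧ f = stb k (pc 11) ∧ g = stb k (pc 12)

instance (a b c d e f g : Pt) : Decidable (Qs a b c d e f g) := by
  unfold Qs
  infer_instance

theorem Wm_ok : Wk m0 Qs := by
  decide +kernel

theorem base_cover : ∀ x ∈ pts, ∃ i ∈ [1, 2, 4, 6, 8, 11, 12], x = pc i ∨ x = fl (pc i) := by
  decide +kernel

theorem Pq_mono_m0 : Pq (mono m0) m0 = 4 := by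
  have h1 : ∑ b : Bool × Bool, (1 : ℤ) = Pq (mono m0) m0 := by
    unfold Pq
    refine Fintype.sum_of_injective stb ?_ _ _ ?_ ?_
    · intro b b' h
      exact stb_inj b b' (by rw [h]) (by rw [h])
    · intro q hq
      by_contra hne
      by_cases hW : InW q
      · rw [if_pos hW] at hne
        obtain ⟨k, k1, k2, k3, k4, k5, k6, k7⟩ := Wk_spec Wm_ok hW (mono_ne_zero _ _ hne)
        apply hq
        refine ⟨k, ?_⟩
        ext1 x
        have key : ∀ i ∈ [1, 2, 4, 6, 8, 11, 12], stb k (pc i) = q (pc i) := by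
          intro i hi
          simp only [List.mem_cons, List.not_mem_nil, or_false] at hi
          rcases hi with rfl | rfl | rfl | rfl | rfl | rfl | rfl
          · exact k1.symm
          · exact k2.symm
          · exact k3.symm
          · exact k4.symm
          · exact k5.symm
          · exact k6.symm
          · exact k7.symm
        obtain ⟨i, hi, hx⟩ := base_cover x (mem_pts x)
        rcases hx with rfl | rfl
        · exact key i hi
        · rw [hW, inW_stb k, key i hi]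
      · rw [if_neg hW] at hne
        exact hne rfl
    · intro b
      rw [if_pos (inW_stb b), stb_val]
  rw [← h1]
  rfl

theorem Pq_cz : Pq cz m0 = 147456 := by
  have h1 : cz = fun l => ∑ m ∈ Finset.range 22, zc m * Ss (rp m) l := rfl
  have h2 : Pq cz m0 = ∑ m ∈ Finset.range 22, zc m * (18432 * Pq (mono (rp m)) m0) := by
    rw [h1, Pq_sum]
    refine Finset.sum_congr rfl fun m _ => ?_
    rw [Pq_mul, Pq_Ss]
  have h12 := Pq_mono_iso (t := rp 12) _ _ iso12
  have h13 := Pq_mono_iso (t := rp 13) _ _ iso13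
  have h4 := Pq_mono_zero (Wn_ok 4 (by simp))
  have h5 := Pq_mono_zero (Wn_ok 5 (by simp))
  have h9 := Pq_mono_zero (Wn_ok 9 (by simp))
  have h17 := Pq_mono_zero (Wn_ok 17 (by simp))
  have h20 := Pq_mono_zero (Wn_ok 20 (by simp))
  rw [Pq_mono_m0] at h12 h13
  rw [h2]
  simp only [Finset.sum_range_succ, Finset.sum_range_zero, zc, h12, h13, h4, h5, h9, h17, h20]
  norm_num

/-- The matching complex on fourteen vertices has an element of order five in the homology of
the chain group of matchings with five edges. -/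
theorem hasTor_base : HasTor (Finset.univ : Finset Pt) 5 := by
  refine ⟨cz, cw, isC_cz, isC_cw, bd_cw, fun y hy h => ?_⟩
  have h1 : bd y = cz := funext h
  have h2 := five_dvd_Pq_bd hy
  rw [h1, Pq_cz] at h2
  omega

end Pool.Agent.Helper45.MC
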