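import Mathlib

set_option autoImplicit false

/-!
Reduced simplicial homology with integer coefficients of a finite simplicial complex `K` whose
vertices lie in a finite linearly ordered type `V`, and the matching complex `M_n`.
-/

namespace Pool.Agent.Helper45.MC

open Finset

/-- The group of integral `d`-chains of `K` (a set of finite vertex sets): the integer valued
functions on finite vertex sets which vanish outside the faces of `K` with `d + 1` vertices. -/
def chains {V : Type*} (K : Set (Finset V)) (d : ℕ) : AddSubgroup (Finset V → ℤ) where
  carrier := {c | ∀ s, c s ≠ 0 → s ∈ K ∧ s.card = d + 1}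
  zero_mem' := fun s hs => absurd rfl hs
  add_mem' := by
    intro a b ha hb s hs
    by_cases h : a s = 0
    · exact hb s (fun h' => hs (by simp [h, h']))
    · exact ha s h
  neg_mem' := by
    intro a ha s hs
    exact ha s (fun h' => hs (by simp [h']))

/-- The simplicial boundary: the coefficient of the boundary of `c` at the face `t` is the sum,
over all vertices `v` outside `t`, of the coefficient of `c` at `t ∪ {v}` times
`(-1) ^ i`, where `i` is the number of vertices of `t` smaller than `v`. -/
def boundary {V : Type*} [Fintype V] [LinearOrder V] :
    (Finset V → ℤ) →+ (Finset V → ℤ) where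
  toFun c t := ∑ v ∈ tᶜ, (-1 : ℤ) ^ (t.filter fun u => u < v).card * c (insert v t)
  map_zero' := by
    funext t
    simp
  map_add' := by
    intro a b
    funext t
    simp [mul_add, Finset.sum_add_distrib]

/-- The group of reduced `d`-cycles of `K`. (For `d = 0` the boundary at the empty face is the
augmentation.) -/
def cycles {V : Type*} [Fintype V] [LinearOrder V] (K : Set (Finset V)) (d : ℕ) :
    AddSubgroup (Finset V → ℤ) :=
  chains K d ⊓ (boundary (V := V)).ker

/-- The group of `d`-boundaries of `K`: the boundaries of `(d + 1)`-chains. -/
def boundaries {V : Type*} [Fintype V] [LinearOrder V] (K : Set (Finset V)) (d : ℕ) :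
    AddSubgroup (Finset V → ℤ) :=
  (chains K (d + 1)).map boundary

/-- The reduced homology group of `K` in degree `d` with integer coefficients. -/
abbrev ReducedHomology {V : Type*} [Fintype V] [LinearOrder V] (K : Set (Finset V)) (d : ℕ) :
    Type _ :=
  cycles K d ⧸ (boundaries K d).addSubgroupOf (cycles K d)

/-- The matching complex `M_n`: its vertices are the edges of the complete graph on `Fin n` (the
non-diagonal unordered pairs), its faces the sets of pairwise disjoint edges. -/
def matchingComplex (n : ℕ) : Set (Finset (Sym2 (Fin n))) :=
  {s | (∀ e ∈ s, ¬ e.IsDiag) ∧ ∀ e ∈ s, ∀ f ∈ s, e ≠ f → ∀ v : Fin n, v ∈ e → v ∉ f}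

end Pool.Agent.Helper45.MC
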