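import Pool.Agent.Helper45.MC.Basic
import Pool.Agent.Helper45.MC.Defs

set_option autoImplicit false
set_option linter.unusedSectionVars false
set_option linter.unusedVariables false

namespace Pool.Agent.Helper45.MC

open Finset

section General

variable {V : Type*} [LinearOrder V]

/-- the sign of the permutation sorting a list -/
def sgn : List V → ℤ
  | [] => 1
  | x :: l => (-1) ^ (l.countP (fun u => decide (u < x))) * sgn l

theorem sgn_swap (x y : V) (hxy : x ≠ y) (b : List V) :
    ∀ a : List V, sgn (a ++ x :: y :: b) = - sgn (a ++ y :: x :: b) := by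
  intro a
  induction a with
  | nil =>
    simp only [List.nil_append, sgn, List.countP_cons]
    rcases lt_or_gt_of_ne hxy with h | h
    · have h' : ¬ (y < x) := not_lt.2 h.le
      simp only [h, h', decide_true, decide_false, if_true, Bool.false_eq_true, if_false]
      ring
    · have h' : ¬ (x < y) := not_lt.2 h.le
      simp only [h, h', decide_true, decide_false, if_true, Bool.false_eq_true, if_false]
      ring
  | cons c a ih =>
    simp only [List.cons_append, sgn]
    have hp : (a ++ x :: y :: b).Perm (a ++ y :: x :: b) :=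
      List.Perm.append_left a (List.Perm.swap y x b)
    rw [hp.countP_eq, ih]
    ring

theorem sgn_sorted (l : List V) (h : l.Pairwise (· ≤ ·)) : sgn l = 1 := by
  induction l with
  | nil => rfl
  | cons x l ih =>
    rw [List.pairwise_cons] at h
    simp only [sgn]
    rw [ih h.2]
    have : l.countP (fun u => decide (u < x)) = 0 := by
      rw [List.countP_eq_zero]
      intro a ha
      simpa using h.1 a ha
    rw [this]
    simp

theorem sgn_sq (l : List V) : sgn l * sgn l = 1 := by
  induction l with
  | nil => rfl
  | cons x l ih =>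
    simp only [sgn]
    have : ((-1 : ℤ) ^ (l.countP (fun u => decide (u < x)))) *
        ((-1 : ℤ) ^ (l.countP (fun u => decide (u < x)))) = 1 := by
      rw [← pow_add, ← two_mul, pow_mul]
      simp
    calc _ = (((-1 : ℤ) ^ (l.countP (fun u => decide (u < x)))) *
        ((-1 : ℤ) ^ (l.countP (fun u => decide (u < x))))) * (sgn l * sgn l) := by ring
      _ = 1 := by rw [this, ih, one_mul]

/-- from functions on finite sets to alternating functions on lists -/
def psi (g : Finset V → ℤ) (l : List V) : ℤ := if l.Nodup then sgn l * g l.toFinset else 0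

/-- from functions on lists to functions on finite sets -/
def phi (f : List V → ℤ) (s : Finset V) : ℤ := f s.sort

theorem alt_psi (g : Finset V → ℤ) : Alt (psi g) := by
  intro a x y b
  have hp : (a ++ x :: y :: b).Perm (a ++ y :: x :: b) :=
    List.Perm.append_left a (List.Perm.swap y x b)
  unfold psi
  by_cases hn : (a ++ x :: y :: b).Nodup
  · rw [if_pos hn, if_pos (hp.nodup_iff.1 hn)]
    have hxy : x ≠ y := by
      intro h
      subst h
      have := (List.nodup_append.1 hn).2.1
      simp at this
    rw [sgn_swap x y hxy, List.toFinset_eq_of_perm _ _ hp]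
    ring
  · rw [if_neg hn, if_neg (fun h => hn (hp.nodup_iff.2 h)), neg_zero]

theorem phi_psi (g : Finset V → ℤ) (s : Finset V) : phi (psi g) s = g s := by
  unfold phi psi
  rw [if_pos (Finset.sort_nodup _ _), sgn_sorted _ (Finset.pairwise_sort _ _), one_mul,
    Finset.sort_toFinset]

/-- an alternating function vanishing on sorted lists vanishes -/
theorem Alt.eq_zero_of_sorted {h : List V → ℤ} (hh : Alt h)
    (h0 : ∀ l : List V, l.Pairwise (· ≤ ·) → h l = 0) : ∀ l, h l = 0 := by
  -- it suffices to compare `h l` with `h` of the insertion sort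
  have ins : ∀ (l : List V) (h : List V → ℤ), Alt h → ∀ x,
      h (x :: l) = 0 ∨ h (x :: l) = h (l.orderedInsert (· ≤ ·) x) ∨
        h (x :: l) = - h (l.orderedInsert (· ≤ ·) x) := by
    intro l
    induction l with
    | nil =>
      intro h hh x
      right; left; rfl
    | cons y l ih =>
      intro h hh x
      by_cases hxy : x ≤ y
      · right; left
        rw [List.orderedInsert_cons, if_pos hxy]
      · rw [List.orderedInsert_cons, if_neg hxy, hh.head]
        rcases ih (fun l => h (y :: l)) (hh.cons y) x with h1 | h1 | h1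
        · left; rw [h1, neg_zero]
        · right; right; rw [h1]
        · right; left; rw [h1, neg_neg]
  have main : ∀ (l : List V) (h : List V → ℤ), Alt h →
      h l = 0 ∨ h l = h (l.insertionSort (· ≤ ·)) ∨ h l = - h (l.insertionSort (· ≤ ·)) := by
    intro l
    induction l with
    | nil => intro h hh; right; left; rfl
    | cons x l ih =>
      intro h hh
      have h1 := ih (fun l => h (x :: l)) (hh.cons x)
      have h2 := ins (l.insertionSort (· ≤ ·)) h hh x
      rw [List.insertionSort_cons]
      rcases h1 with h1 | h1 | h1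
      · left; exact h1
      · rw [h1]; exact h2
      · rw [h1]
        rcases h2 with h2 | h2 | h2
        · left; rw [h2, neg_zero]
        · right; right; rw [h2]
        · right; left; rw [h2, neg_neg]
  intro l
  rcases main l h hh with h1 | h1 | h1
  · exact h1
  · rw [h1]; exact h0 _ (List.pairwise_insertionSort _ _)
  · rw [h1, h0 _ (List.pairwise_insertionSort _ _), neg_zero]

theorem psi_phi {f : List V → ℤ} (hf : Alt f) (hn : ∀ l, ¬ l.Nodup → f l = 0) (l : List V) :
    psi (phi f) l = f l := by
  have h1 : Alt (fun l => psi (phi f) l - f l) := (alt_psi _).sub hf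
  have h2 := h1.eq_zero_of_sorted (by
    intro l hl
    by_cases hnd : l.Nodup
    · unfold psi phi
      rw [if_pos hnd, sgn_sorted l hl, one_mul, (List.toFinset_sort (· ≤ ·) hnd).2 hl, sub_self]
    · unfold psi
      rw [if_neg hnd, hn l hnd, sub_zero]) l
  linarith

theorem mem_sort_of {s : Finset V} {e : V} (h : e ∈ s) : e ∈ s.sort :=
  (Finset.mem_sort (· ≤ ·)).2 h

theorem length_of_card {l : List V} (h : l.Nodup) {m : ℕ} (hc : l.toFinset.card = m) :
    l.length = m := by
  rw [← hc, List.toFinset_card_of_nodup h]

variable [Fintype V]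

theorem sum_psi (g : Finset V → ℤ) (l : List V) :
    ∑ x : V, psi g (x :: l) = psi (boundary g) l := by
  by_cases hl : l.Nodup
  · unfold psi
    rw [if_pos hl]
    simp only [boundary, AddMonoidHom.coe_mk, ZeroHom.coe_mk]
    rw [Finset.mul_sum]
    have h1 : ∀ x : V, (if (x :: l).Nodup then sgn (x :: l) * g (x :: l).toFinset else 0) =
        if x ∈ (l.toFinset)ᶜ then sgn l * ((-1 : ℤ) ^ (l.toFinset.filter fun u => u < x).card *
          g (insert x l.toFinset)) else 0 := by
      intro x
      by_cases hx : x ∈ l
      · have h2 : ¬ (x :: l).Nodup := by simp [hx]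
        have h3 : x ∉ (l.toFinset)ᶜ := by simp [hx]
        rw [if_neg h2, if_neg h3]
      · have h2 : (x :: l).Nodup := by simp [hx, hl]
        have h3 : x ∈ (l.toFinset)ᶜ := by simp [hx]
        rw [if_pos h2, if_pos h3, List.toFinset_cons]
        simp only [sgn]
        have h4 : l.countP (fun u => decide (u < x)) =
            (l.toFinset.filter fun u => u < x).card := by
          rw [List.countP_eq_length_filter,
            ← List.toFinset_card_of_nodup (hl.filter _)]
          congr 1
          ext a
          simp
        rw [h4]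
        ring
    rw [Finset.sum_congr rfl fun x _ => h1 x]
    rw [Finset.sum_ite_mem, Finset.univ_inter]
  · have h1 : ∀ x : V, psi g (x :: l) = 0 := by
      intro x
      unfold psi
      rw [if_neg]
      intro h
      exact hl (List.nodup_cons.1 h).2
    rw [Finset.sum_congr rfl fun x _ => h1 x]
    unfold psi
    rw [if_neg hl]
    simp

end General

section Final

instance {α : Type*} [DecidableEq α] : Std.Symm (Disj (α := α)) := ⟨fun _ _ h => h.symm⟩

theorem IsM.nodup {α : Type*} [DecidableEq α] {A : Finset α} {l : List (Sym2 α)}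
    (h : IsM A l) : l.Nodup := by
  induction l with
  | nil => exact List.nodup_nil
  | cons e l ih =>
    rw [isM_cons] at h
    rw [List.nodup_cons]
    refine ⟨fun he => ?_, ih h.2.2⟩
    induction e with
    | h x y => exact h.2.1 _ he x (by simp) (by simp)

/-- From the list model to the simplicial homology of the matching complex. -/
theorem exists_addOrderOf_eq_five (n d : ℕ) (h : HasTor (Finset.univ : Finset (Fin n)) (d + 1))
    [LinearOrder (Sym2 (Fin n))] :
    ∃ x : ReducedHomology (matchingComplex n) d, addOrderOf x = 5 := by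
  obtain ⟨z, w, hz, hw, hbd, hnot⟩ := h
  have nd : ∀ {r : ℕ} {f : List (Sym2 (Fin n)) → ℤ}, IsC Finset.univ r f →
      ∀ l : List (Sym2 (Fin n)), ¬ l.Nodup → f l = 0 := by
    intro r f hf l hl
    exact hf.zero_of_not fun hM => hl hM.nodup
  -- chains
  have chn : ∀ {r : ℕ} {f : List (Sym2 (Fin n)) → ℤ}, IsC Finset.univ (r + 1) f →
      phi f ∈ chains (matchingComplex n) r := by
    intro r f hf s hs
    obtain ⟨h1, h2⟩ := hf.supp _ hs
    refine ⟨⟨fun e he => (h1.1 e (mem_sort_of he)).1, ?_⟩, by simpa using h2⟩
    intro e he f hf hef v hve hvf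
    have h4 := h1.2.forall (mem_sort_of he) (mem_sort_of hf) hef
    exact h4 v hve hvf
  have chn' : ∀ {r : ℕ} {g : Finset (Sym2 (Fin n)) → ℤ},
      g ∈ chains (matchingComplex n) r → IsC Finset.univ (r + 1) (psi g) := by
    intro r g hg
    refine ⟨alt_psi g, fun l hl => ?_⟩
    unfold psi at hl
    split_ifs at hl with hnd
    · have h1 := right_ne_zero_of_mul hl
      obtain ⟨⟨h2, h3⟩, h4⟩ := hg _ h1
      refine ⟨⟨fun e he => ⟨h2 e (by simpa using he), fun a _ => Finset.mem_univ a⟩, ?_⟩, ?_⟩
      · refine (List.nodup_iff_pairwise_ne.1 hnd).imp_of_mem ?_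
        intro e f he hf hef v hve hvf
        exact h3 e (by simpa using he) f (by simpa using hf) hef v hve hvf
      · exact length_of_card hnd h4
    · exact absurd rfl hl
  -- boundary relations
  have bdphi : ∀ {r : ℕ} {f : List (Sym2 (Fin n)) → ℤ}, IsC Finset.univ r f →
      boundary (phi f) = phi (bd f) := by
    intro r f hf
    funext s
    have h1 : psi (phi f) = f := funext (psi_phi hf.alt (nd hf))
    have h2 : ∀ l, psi (boundary (phi f)) l = bd f l := by
      intro l
      rw [← sum_psi, h1]
      rfl
    have h3 : psi (boundary (phi f)) = bd f := funext h2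
    rw [← h3, phi_psi]
  have hzc : phi z ∈ chains (matchingComplex n) d := chn hz
  have hbdz : bd z = fun _ => 0 := by
    funext l
    have h1 : bd (bd w) l = 0 := bd_bd hw.alt l
    have h2 : bd w = fun l => 5 * z l := funext hbd
    rw [h2] at h1
    unfold bd at h1 ⊢
    rw [← Finset.mul_sum] at h1
    omega
  have hzcyc : phi z ∈ cycles (matchingComplex n) d := by
    refine ⟨hzc, ?_⟩
    show phi z ∈ (boundary (V := Sym2 (Fin n))).ker
    rw [AddMonoidHom.mem_ker, bdphi hz, hbdz]
    rfl
  have hwc : phi w ∈ chains (matchingComplex n) (d + 1) := chn hw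
  have h5 : boundary (phi w) = 5 • phi z := by
    rw [bdphi hw]
    funext s
    unfold phi
    rw [hbd]
    simp
  refine ⟨QuotientAddGroup.mk ⟨phi z, hzcyc⟩, ?_⟩
  have hprime : Nat.Prime 5 := by norm_num
  have : Fact (Nat.Prime 5) := ⟨hprime⟩
  apply addOrderOf_eq_prime
  · rw [← QuotientAddGroup.mk_nsmul, QuotientAddGroup.eq_zero_iff, AddSubgroup.mem_addSubgroupOf]
    refine ⟨phi w, hwc, ?_⟩
    rw [h5]
    rfl
  · intro h0
    rw [QuotientAddGroup.eq_zero_iff, AddSubgroup.mem_addSubgroupOf] at h0
    obtain ⟨y, hy, hyz⟩ := h0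
    have hyz' : boundary y = phi z := hyz
    refine hnot (psi y) (chn' hy) ?_
    intro l
    have h1 : bd (psi y) l = psi (boundary y) l := by
      rw [← sum_psi]
      rfl
    rw [h1, hyz', psi_phi hz.alt (nd hz)]

end Final

end Pool.Agent.Helper45.MC
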