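import Pool.Agent.Helper45.MC.Basic

set_option autoImplicit false
set_option linter.unusedSectionVars false
set_option linter.unusedVariables false

namespace Pool.Agent.Helper45.MC

open Finset

variable {α β : Type*} [DecidableEq α] [DecidableEq β]

/-- all endpoints lie in the range of `j` -/
def InR (j : α → β) (k : β → α) (l : List (Sym2 β)) : Prop := ∀ e ∈ l, ∀ a ∈ e, j (k a) = a

open Classical in
/-- push-forward of functions on lists of edges along an injection -/
noncomputable def push (j : α → β) (k : β → α) (f : List (Sym2 α) → ℤ) (l : List (Sym2 β)) : ℤ :=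
  if InR j k l then f (l.map (Sym2.map k)) else 0

/-- pull-back -/
def pull (j : α → β) (g : List (Sym2 β) → ℤ) (l : List (Sym2 α)) : ℤ := g (l.map (Sym2.map j))

variable {j : α → β} {k : β → α}

theorem map_map_jk {l : List (Sym2 β)} (h : InR j k l) :
    (l.map (Sym2.map k)).map (Sym2.map j) = l := by
  rw [List.map_map]
  conv_rhs => rw [← List.map_id l]
  refine List.map_congr_left fun e he => ?_
  have h1 := h e he
  induction e with
  | h x y =>
    simp only [Function.comp, Sym2.map_mk, id]
    rw [h1 x (by simp), h1 y (by simp)]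

theorem map_map_kj (hk : ∀ a, k (j a) = a) (l : List (Sym2 α)) :
    (l.map (Sym2.map j)).map (Sym2.map k) = l := by
  rw [List.map_map]
  conv_rhs => rw [← List.map_id l]
  refine List.map_congr_left fun e he => ?_
  induction e with
  | h x y =>
    simp only [Function.comp, Sym2.map_mk, id]
    rw [hk, hk]

theorem inR_map (hk : ∀ a, k (j a) = a) (l : List (Sym2 α)) :
    InR j k (l.map (Sym2.map j)) := by
  intro e he a ha
  rw [List.mem_map] at he
  obtain ⟨e', he', rfl⟩ := he
  rw [Sym2.mem_map] at ha
  obtain ⟨b, hb, rfl⟩ := ha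
  rw [hk]

theorem push_map (hk : ∀ a, k (j a) = a) (f : List (Sym2 α) → ℤ) (l : List (Sym2 α)) :
    push j k f (l.map (Sym2.map j)) = f l := by
  unfold push
  rw [if_pos (inR_map hk l), map_map_kj hk]

theorem inR_cons {x : Sym2 β} {l : List (Sym2 β)} :
    InR j k (x :: l) ↔ (∀ a ∈ x, j (k a) = a) ∧ InR j k l := by
  simp [InR]

theorem inR_perm {l l' : List (Sym2 β)} (h : l.Perm l') : InR j k l ↔ InR j k l' := by
  unfold InR
  constructor
  · intro h1 e he
    exact h1 e (h.mem_iff.2 he)
  · intro h1 e he
    exact h1 e (h.mem_iff.1 he)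

theorem alt_push {f : List (Sym2 α) → ℤ} (hf : Alt f) : Alt (push j k f) := by
  intro a x y b
  have h1 : (a ++ x :: y :: b).Perm (a ++ y :: x :: b) :=
    List.Perm.append_left a (List.Perm.swap y x b)
  unfold push
  by_cases h2 : InR j k (a ++ x :: y :: b)
  · rw [if_pos h2, if_pos ((inR_perm h1).1 h2)]
    exact hf.map (Sym2.map k) a x y b
  · rw [if_neg h2, if_neg (fun h => h2 ((inR_perm h1).2 h)), neg_zero]

theorem isM_of_map (hj : Function.Injective j) {A : Finset α} {l : List (Sym2 α)}
    (h : IsM (A.image j) (l.map (Sym2.map j))) : IsM A l := by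
  constructor
  · intro e he
    obtain ⟨h1, h2⟩ := h.1 _ (List.mem_map_of_mem he)
    constructor
    · intro hd
      apply h1
      induction e with
      | h x y =>
        simp only [Sym2.map_mk, Sym2.mk_isDiag_iff] at hd ⊢
        rw [hd]
    · intro a ha
      have h3 := h2 (j a) (by rw [Sym2.mem_map]; exact ⟨a, ha, rfl⟩)
      rw [Finset.mem_image] at h3
      obtain ⟨b, hb, hab⟩ := h3
      rwa [← hj hab]
  · have h1 := h.2
    rw [List.pairwise_map] at h1
    refine h1.imp ?_
    intro e f hef a ha hb
    refine hef (j a) ?_ ?_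
    · rw [Sym2.mem_map]; exact ⟨a, ha, rfl⟩
    · rw [Sym2.mem_map]; exact ⟨a, hb, rfl⟩

theorem isC_push (hk : ∀ a, k (j a) = a) {A : Finset α} {r : ℕ} {f : List (Sym2 α) → ℤ}
    (hf : IsC A r f) : IsC (A.image j) r (push j k f) := by
  refine ⟨alt_push hf.alt, fun l hl => ?_⟩
  unfold push at hl
  split_ifs at hl with h
  · obtain ⟨h1, h2⟩ := hf.supp _ hl
    have h3 := h1.map j (Function.LeftInverse.injective hk) (A.image j)
      (fun a ha => Finset.mem_image_of_mem j ha)
    rw [map_map_jk h] at h3
    exact ⟨h3, by simpa using h2⟩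
  · exact absurd rfl hl

theorem isC_pull (hj : Function.Injective j) {A : Finset α} {r : ℕ} {g : List (Sym2 β) → ℤ}
    (hg : IsC (A.image j) r g) : IsC A r (pull j g) := by
  refine ⟨hg.alt.map _, fun l hl => ?_⟩
  obtain ⟨h1, h2⟩ := hg.supp _ hl
  exact ⟨isM_of_map hj h1, by simpa using h2⟩

variable [Fintype α] [Fintype β]

theorem bd_push (hk : ∀ a, k (j a) = a) (f : List (Sym2 α) → ℤ) (l : List (Sym2 β)) :
    bd (push j k f) l = push j k (bd f) l := by
  by_cases h : InR j k l
  · have h1 : push j k (bd f) l = ∑ x : Sym2 α, f (x :: l.map (Sym2.map k)) := by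
      unfold push
      rw [if_pos h]
      rfl
    rw [h1]
    unfold bd
    symm
    refine Fintype.sum_of_injective (Sym2.map j)
      (Sym2.map.injective (Function.LeftInverse.injective hk)) _ _ ?_ ?_
    · intro x hx
      unfold push
      rw [if_neg]
      intro h2
      rw [inR_cons] at h2
      apply hx
      refine ⟨Sym2.map k x, ?_⟩
      induction x with
      | h a b =>
        simp only [Sym2.map_mk]
        rw [h2.1 a (by simp), h2.1 b (by simp)]
    · intro x
      unfold push
      rw [if_pos]
      · have : Sym2.map k (Sym2.map j x) = x := by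
          induction x with
          | h a b => simp [hk]
        rw [List.map_cons, this]
      · rw [inR_cons]
        refine ⟨?_, h⟩
        intro a ha
        rw [Sym2.mem_map] at ha
        obtain ⟨b, hb, rfl⟩ := ha
        rw [hk]
  · unfold bd push
    rw [if_neg h]
    refine Finset.sum_eq_zero fun x _ => ?_
    rw [if_neg]
    rw [inR_cons]
    exact fun h2 => h h2.2

theorem bd_pull (hk : ∀ a, k (j a) = a) {A : Finset α} {r : ℕ} {g : List (Sym2 β) → ℤ}
    (hg : IsC (A.image j) r g) (l : List (Sym2 α)) :
    bd (pull j g) l = pull j (bd g) l := by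
  unfold bd pull
  refine Fintype.sum_of_injective (Sym2.map j)
      (Sym2.map.injective (Function.LeftInverse.injective hk)) _ _ ?_ ?_
  · intro x hx
    apply hg.zero_of_not
    intro h1
    rw [isM_cons] at h1
    apply hx
    refine ⟨Sym2.map k x, ?_⟩
    have h2 : ∀ a ∈ x, j (k a) = a := by
      intro a ha
      have := h1.1.2 a ha
      rw [Finset.mem_image] at this
      obtain ⟨b, _, rfl⟩ := this
      rw [hk]
    induction x with
    | h a b =>
      simp only [Sym2.map_mk]
      rw [h2 a (by simp), h2 b (by simp)]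
  · intro x
    simp

/-- Torsion of order five can be transported along injections. -/
theorem HasTor.image (hk : ∀ a, k (j a) = a) {A : Finset α} {r : ℕ} (h : HasTor A r) :
    HasTor (A.image j) r := by
  obtain ⟨z, w, hz, hw, hbd, hnot⟩ := h
  refine ⟨push j k z, push j k w, isC_push hk hz, isC_push hk hw, ?_, ?_⟩
  · intro l
    rw [bd_push hk]
    unfold push
    split_ifs
    · rw [hbd]
    · rw [mul_zero]
  · intro y hy hyz
    refine hnot (pull j y) (isC_pull (Function.LeftInverse.injective hk) hy) ?_
    intro l
    rw [bd_pull hk hy]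
    unfold pull
    rw [hyz, push_map hk]

end Pool.Agent.Helper45.MC
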