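import Pool.Agent.Helper45.MC.Step
import Pool.Agent.Helper45.MC.Transport
import Pool.Agent.Helper45.MC.Simp
import Pool.Agent.Helper45.MC.Func

set_option autoImplicit false

namespace Pool.Agent.Helper45.MC

open Finset

theorem hasTor_fourteen : HasTor (Finset.univ : Finset (Fin 14)) 5 := by
  have hc : Fintype.card Pt = 14 := by rfl
  let e : Pt ≃ Fin 14 := Fintype.equivFinOfCardEq hc
  have h := hasTor_base.image (j := e) (k := e.symm) (fun a => e.symm_apply_apply a)
  have h1 : (Finset.univ : Finset Pt).image e = Finset.univ := by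
    rw [Finset.eq_univ_iff_forall]
    intro x
    rw [Finset.mem_image]
    exact ⟨e.symm x, Finset.mem_univ _, e.apply_symm_apply x⟩
  rwa [h1] at h

theorem hasTor_step (n r : ℕ) (hn : 0 < n) (h : HasTor (Finset.univ : Finset (Fin n)) r) :
    HasTor (Finset.univ : Finset (Fin (n + 2))) (r + 1) := by
  let j : Fin n → Fin (n + 2) := fun i => ⟨i.1, by omega⟩
  let k : Fin (n + 2) → Fin n := fun i => if hi : i.1 < n then ⟨i.1, hi⟩ else ⟨0, hn⟩
  have hk : ∀ a, k (j a) = a := by
    intro a
    simp only [j, k]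
    rw [dif_pos a.2]
  have h1 := h.image hk
  have hA : ∀ x : Fin (n + 2), x ∈ (Finset.univ : Finset (Fin n)).image j ↔ x.1 < n := by
    intro x
    rw [Finset.mem_image]
    constructor
    · rintro ⟨a, _, rfl⟩
      exact a.2
    · intro hx
      exact ⟨⟨x.1, hx⟩, Finset.mem_univ _, rfl⟩
  have h2 := h1.step (v := ⟨n, by omega⟩) (w := ⟨n + 1, by omega⟩)
    (by rw [hA]; simp) (by rw [hA]; simp) (by simp [Fin.ext_iff])
    ⟨j ⟨0, hn⟩, Finset.mem_image_of_mem j (Finset.mem_univ _)⟩
  have h3 : insert (⟨n, by omega⟩ : Fin (n + 2)) (insert (⟨n + 1, by omega⟩ : Fin (n + 2))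
      ((Finset.univ : Finset (Fin n)).image j)) = Finset.univ := by
    rw [Finset.eq_univ_iff_forall]
    intro x
    rw [Finset.mem_insert, Finset.mem_insert, hA]
    have := x.2
    simp only [Fin.ext_iff]
    omega
  rwa [h3] at h2

theorem hasTor_all (m : ℕ) : HasTor (Finset.univ : Finset (Fin (14 + 2 * m))) (5 + m) := by
  induction m with
  | zero => exact hasTor_fourteen
  | succ m ih => exact hasTor_step (14 + 2 * m) (5 + m) (by omega) ih

theorem five_torsion (n : ℕ) (hn : Even n) (h14 : 14 ≤ n) [LinearOrder (Sym2 (Fin n))] :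
    ∃ x : ReducedHomology (matchingComplex n) ((n - 6) / 2), addOrderOf x = 5 := by
  obtain ⟨m, rfl⟩ : ∃ m, n = 14 + 2 * m := by
    obtain ⟨k, hk⟩ := hn
    exact ⟨k - 7, by omega⟩
  apply exists_addOrderOf_eq_five
  have h1 : (14 + 2 * m - 6) / 2 + 1 = 5 + m := by omega
  rw [h1]
  exact hasTor_all m

end Pool.Agent.Helper45.MC
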