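import Pool.Agent.Helper45.MC.Cert

set_option autoImplicit false
set_option linter.unusedSectionVars false
set_option linter.unusedVariables false

namespace Pool.Agent.Helper45.MC

open Finset

/-! ### The boundary of the six-edge chain -/

/-- coefficients of the five-edge cycle -/
def zc : ℕ → ℤ
  | 4 => -1
  | 5 => 2
  | 9 => -2
  | 12 => 1
  | 13 => 1
  | 17 => 2
  | 20 => 2
  | _ => 0

/-- the six-edge chain -/
def cw (l : List (Sym2 Pt)) : ℤ := (Tl.map fun p => p.1 * Ss p.2 l).sum

/-- the five-edge cycle -/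
def cz (l : List (Sym2 Pt)) : ℤ := ∑ m ∈ Finset.range 22, zc m * Ss (rp m) l

theorem collect {ι : Type*} (N : ℕ) (G : ℕ → ℤ) (c : ι → ℤ) (m : ι → ℕ) (L : List ι)
    (hL : ∀ i ∈ L, m i < N) :
    (L.map (fun i => c i * G (m i))).sum =
      ∑ k ∈ Finset.range N, (L.map (fun i => if m i = k then c i else 0)).sum * G k := by
  induction L with
  | nil => simp
  | cons a L ih =>
    simp only [List.map_cons, List.sum_cons]
    rw [ih (fun i hi => hL i (by simp [hi]))]
    have h1 : ∀ k : ℕ, ((if m a = k then c a else 0) +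
        (L.map (fun i => if m i = k then c i else 0)).sum) * G k =
        (if m a = k then c a * G k else 0) +
        (L.map (fun i => if m i = k then c i else 0)).sum * G k := by
      intro k
      split_ifs <;> ring
    rw [Finset.sum_congr rfl fun k _ => h1 k, Finset.sum_add_distrib]
    congr 1
    rw [Finset.sum_ite_eq, if_pos]
    rw [Finset.mem_range]
    exact hL a (by simp)

theorem sum_flatMap' {ι κ : Type*} (L : List ι) (f : ι → List κ) (g : κ → ℤ) :
    ((L.flatMap f).map g).sum = (L.map fun a => ((f a).map g).sum).sum := by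
  induction L with
  | nil => simp
  | cons a L ih =>
    rw [List.flatMap_cons, List.map_append, List.sum_append, ih]
    simp

theorem okc_lt : ∀ p ∈ Fl.zip Cdata, p.2.1 < 22 := by
  decide +kernel

theorem okc_tot : ∀ k ∈ Finset.range 22,
    ((Fl.zip Cdata).map fun p => if p.2.1 = k then p.1.1 * p.2.2.1 else 0).sum = 5 * zc k := by
  decide +kernel

theorem bd_cw (l : List (Sym2 Pt)) : bd cw l = 5 * cz l := by
  have h1 : bd cw l = (Tl.map fun p => p.1 * bd (Ss p.2) l).sum := by
    unfold bd cw
    rw [sum_listSum]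
    refine congrArg List.sum (List.map_congr_left fun p _ => ?_)
    rw [Finset.mul_sum]
  have h2 : (Tl.map fun p => p.1 * bd (Ss p.2) l).sum = (Fl.map fun p => p.1 * Ss p.2 l).sum := by
    unfold Fl
    rw [sum_flatMap']
    refine congrArg List.sum (List.map_congr_left fun p _ => ?_)
    rw [bd_Ss, List.map_map, ← List.sum_map_mul_left]
    refine congrArg List.sum (List.map_congr_left fun q _ => ?_)
    simp only [Function.comp]
    ring
  have h3 : (Fl.map fun p => p.1 * Ss p.2 l) =
      (Fl.zip Cdata).map fun p => p.1.1 * Ss p.1.2 l := by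
    have h4 : (Fl.zip Cdata).map Prod.fst = Fl := by
      rw [List.map_fst_zip]
      rw [okc_all.1]
    conv_lhs => rw [← h4]
    rw [List.map_map]
    rfl
  have h5 : ((Fl.zip Cdata).map fun p => p.1.1 * Ss p.1.2 l) =
      (Fl.zip Cdata).map fun p => (p.1.1 * p.2.2.1) * Ss (rp p.2.1) l := by
    refine List.map_congr_left fun p hp => ?_
    have h6 := okc_spec p.1.2 p.2 ((List.all_eq_true.1 okc_all.2) p hp) l
    rw [h6]
    ring
  rw [h1, h2, h3, h5]
  refine (collect 22 (fun k => Ss (rp k) l) (fun p : (ℤ × List (Sym2 Pt)) ×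
    (ℕ × ℤ × List (Fin 4 × Fin 4) × List (Fin 3 × Fin 3) × List ℕ) => p.1.1 * p.2.2.1)
    (fun p => p.2.1) (Fl.zip Cdata) okc_lt).trans ?_
  unfold cz
  rw [Finset.mul_sum]
  refine Finset.sum_congr rfl fun k hk => ?_
  rw [okc_tot k hk]
  ring

/-! ### All lists are matchings -/

/-- a check for matchings -/
def isMb (l : List (Sym2 Pt)) : Bool :=
  decide ((∀ e ∈ l, ¬ e.IsDiag) ∧ l.Pairwise Disj)

theorem isM_of_isMb {l : List (Sym2 Pt)} (h : isMb l = true) : IsM Finset.univ l := by
  have h1 := of_decide_eq_true h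
  exact ⟨fun e he => ⟨h1.1 e he, fun a _ => Finset.mem_univ a⟩, h1.2⟩

theorem Tl_ok : ∀ p ∈ Tl, isMb p.2 = true ∧ p.2.length = 6 := by
  decide +kernel

theorem rp_ok : ∀ m ∈ Finset.range 22, isMb (rp m) = true ∧ (rp m).length = 5 := by
  decide +kernel

theorem isC_cz : IsC Finset.univ 5 cz := by
  unfold cz
  refine IsC.sum _ fun m hm => ?_
  have h1 := isC_Ss (isM_of_isMb (rp_ok m hm).1)
  rw [(rp_ok m hm).2] at h1
  exact h1.smul _

theorem isC_listSum {ι : Type*} {r : ℕ} (L : List ι) (f : ι → List (Sym2 Pt) → ℤ)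
    (h : ∀ i ∈ L, IsC Finset.univ r (f i)) :
    IsC Finset.univ r (fun l => (L.map fun i => f i l).sum) := by
  induction L with
  | nil =>
    refine ⟨fun a x y b => by simp, fun l hl => ?_⟩
    simp at hl
  | cons a L ih =>
    simp only [List.map_cons, List.sum_cons]
    exact (h a (by simp)).add (ih fun i hi => h i (by simp [hi]))

theorem isC_cw : IsC Finset.univ 6 cw := by
  unfold cw
  refine isC_listSum Tl _ fun p hp => ?_
  have h1 := isC_Ss (isM_of_isMb (Tl_ok p hp).1)
  rw [(Tl_ok p hp).2] at h1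
  exact h1.smul _

end Pool.Agent.Helper45.MC
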