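import Mathlib

set_option autoImplicit false
set_option linter.unusedSectionVars false

namespace Pool.Agent.Helper45.MC

open Finset

/-- A function on lists is alternating if swapping two adjacent entries changes the sign. -/
def Alt {E M : Type*} [Neg M] (F : List E → M) : Prop :=
  ∀ (a : List E) (x y : E) (b : List E), F (a ++ x :: y :: b) = - F (a ++ y :: x :: b)

section Alt

variable {E M : Type*} [AddCommGroup M]

theorem Alt.cons {F : List E → M} (h : Alt F) (x : E) : Alt (fun l => F (x :: l)) := by
  intro a y z b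
  exact h (x :: a) y z b

theorem Alt.head {F : List E → M} (h : Alt F) (x y : E) (b : List E) :
    F (x :: y :: b) = - F (y :: x :: b) := h [] x y b

theorem Alt.front {F : List E → M} (h : Alt F) (x : E) (b : List E) :
    ∀ (a p : List E), F (p ++ a ++ x :: b) = (-1 : ℤ) ^ a.length • F (p ++ x :: (a ++ b)) := by
  intro a
  induction a with
  | nil => intro p; simp
  | cons y a ih =>
    intro p
    have h1 := ih (p ++ [y])
    have h2 := h p y x (a ++ b)
    have e1 : p ++ (y :: a) ++ x :: b = p ++ [y] ++ a ++ x :: b := by simp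
    have e2 : p ++ [y] ++ x :: (a ++ b) = p ++ y :: x :: (a ++ b) := by simp
    rw [e1, h1, e2, h2]
    simp [pow_succ]

theorem Alt.front' {F : List E → M} (h : Alt F) (x : E) (a b : List E) :
    F (a ++ x :: b) = (-1 : ℤ) ^ a.length • F (x :: (a ++ b)) := by
  have := h.front x b a []
  simpa using this

/-- Two alternating functions which agree on all lists starting with `x` agree on all lists
containing `x`. -/
theorem Alt.eq_of_front {F G : List E → M} (hF : Alt F) (hG : Alt G) (x : E)
    (h : ∀ l, F (x :: l) = G (x :: l)) (l : List E) (hx : x ∈ l) : F l = G l := by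
  obtain ⟨a, b, rfl⟩ := List.append_of_mem hx
  rw [hF.front', hG.front', h]

theorem Alt.neg {F : List E → M} (h : Alt F) : Alt (fun l => - F l) := by
  intro a x y b
  simp only [h a x y b]

theorem Alt.add {F G : List E → M} (h : Alt F) (h' : Alt G) : Alt (fun l => F l + G l) := by
  intro a x y b
  simp only [h a x y b, h' a x y b]
  abel

theorem Alt.sub {F G : List E → M} (h : Alt F) (h' : Alt G) : Alt (fun l => F l - G l) := by
  intro a x y b
  simp only [h a x y b, h' a x y b]
  abel

theorem Alt.sum {ι : Type*} (s : Finset ι) {F : ι → List E → M} (h : ∀ i ∈ s, Alt (F i)) :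
    Alt (fun l => ∑ i ∈ s, F i l) := by
  intro a x y b
  simp only
  rw [← Finset.sum_neg_distrib]
  exact Finset.sum_congr rfl fun i hi => h i hi a x y b

theorem Alt.zsmul (c : ℤ) {F : List E → M} (h : Alt F) : Alt (fun l => c • F l) := by
  intro a x y b
  simp only [h a x y b]
  simp

theorem Alt.map {E' : Type*} {F : List E → M} (h : Alt F) (g : E' → E) :
    Alt (fun l => F (l.map g)) := by
  intro a x y b
  simpa using h (a.map g) (g x) (g y) (b.map g)

end Alt

section Wedge

variable {E : Type*} [DecidableEq E]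

/-- the wedge product of the basis element `x` with the alternating function `f` -/
def wedge (x : E) : List E → (List E → ℤ) → ℤ
  | [], _ => 0
  | y :: l, f => (if y = x then f l else 0) - wedge x l (fun l' => f (y :: l'))

theorem wedge_zero (x : E) : ∀ (l : List E), wedge x l (fun _ => 0) = 0 := by
  intro l
  induction l with
  | nil => rfl
  | cons y l ih => simp [wedge, ih]

theorem wedge_add (x : E) : ∀ (l : List E) (f g : List E → ℤ),
    wedge x l (fun l' => f l' + g l') = wedge x l f + wedge x l g := by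
  intro l
  induction l with
  | nil => intro f g; simp [wedge]
  | cons y l ih =>
    intro f g
    simp only [wedge, ih]
    split_ifs <;> ring

theorem wedge_neg (x : E) : ∀ (l : List E) (f : List E → ℤ),
    wedge x l (fun l' => - f l') = - wedge x l f := by
  intro l
  induction l with
  | nil => intro f; simp [wedge]
  | cons y l ih =>
    intro f
    simp only [wedge, ih]
    split_ifs <;> ring

theorem wedge_mul (x : E) (c : ℤ) : ∀ (l : List E) (f : List E → ℤ),
    wedge x l (fun l' => c * f l') = c * wedge x l f := by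
  intro l
  induction l with
  | nil => intro f; simp [wedge]
  | cons y l ih =>
    intro f
    simp only [wedge, ih]
    split_ifs <;> ring

theorem wedge_sum {ι : Type*} (x : E) (s : Finset ι) (l : List E) (f : ι → List E → ℤ) :
    wedge x l (fun l' => ∑ i ∈ s, f i l') = ∑ i ∈ s, wedge x l (f i) := by
  classical
  induction s using Finset.induction_on with
  | empty => simp [wedge_zero]
  | insert a s ha ih =>
    simp only [Finset.sum_insert ha]
    rw [wedge_add, ih]

theorem wedge_congr (x : E) (l : List E) {f g : List E → ℤ} (h : ∀ l', f l' = g l') :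
    wedge x l f = wedge x l g := by
  have : f = g := funext h
  rw [this]

theorem wedge_alt (x : E) : ∀ (a : List E) (f : List E → ℤ), Alt f → ∀ (y z : E) (b : List E),
    wedge x (a ++ y :: z :: b) f = - wedge x (a ++ z :: y :: b) f := by
  intro a
  induction a with
  | nil =>
    intro f hf y z b
    simp only [List.nil_append, wedge]
    have h1 : wedge x b (fun l' => f (y :: z :: l')) = - wedge x b (fun l' => f (z :: y :: l')) := by
      rw [← wedge_neg]
      exact wedge_congr x b fun l' => hf [] y z l'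
    rw [h1]
    ring
  | cons c a ih =>
    intro f hf y z b
    simp only [List.cons_append, wedge]
    rw [ih _ (hf.cons c), hf a y z b]
    split_ifs <;> ring

theorem alt_wedge (x : E) {f : List E → ℤ} (hf : Alt f) : Alt (fun l => wedge x l f) :=
  fun a y z b => wedge_alt x a f hf y z b

theorem wedge_ne_zero (x : E) : ∀ (l : List E) (f : List E → ℤ), wedge x l f ≠ 0 →
    ∃ a b, l = a ++ x :: b ∧ f (a ++ b) ≠ 0 := by
  intro l
  induction l with
  | nil => intro f h; exact absurd rfl h
  | cons y l ih =>
    intro f h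
    simp only [wedge] at h
    by_cases h1 : wedge x l (fun l' => f (y :: l')) = 0
    · rw [h1, sub_zero] at h
      by_cases h2 : y = x
      · rw [if_pos h2] at h
        exact ⟨[], l, by simp [h2], by simpa using h⟩
      · rw [if_neg h2] at h
        exact absurd rfl h
    · obtain ⟨a, b, hab, hf⟩ := ih _ h1
      exact ⟨y :: a, b, by simp [hab], by simpa using hf⟩

theorem wedge_eq_zero_of_notMem (x : E) (l : List E) (f : List E → ℤ) (h : x ∉ l) :
    wedge x l f = 0 := by
  by_contra h1
  obtain ⟨a, b, rfl, _⟩ := wedge_ne_zero x l f h1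
  exact h (by simp)

theorem wedge_cons_of_zero (x y : E) (l : List E) (f : List E → ℤ) (h : ∀ l', f (y :: l') = 0) :
    wedge x (y :: l) f = if y = x then f l else 0 := by
  simp only [wedge]
  rw [wedge_congr x l h, wedge_zero, sub_zero]

end Wedge

section Matching

variable {α : Type*} [DecidableEq α]

/-- two edges are disjoint -/
def Disj (e f : Sym2 α) : Prop := ∀ a ∈ e, a ∉ f

theorem Disj.symm {e f : Sym2 α} (h : Disj e f) : Disj f e := fun a ha hb => h a hb ha

instance : DecidableRel (Disj (α := α)) := fun e f =>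
  decidable_of_iff (∀ a ∈ e.toFinset, a ∉ f) (by simp [Disj])

/-- a list of edges is a matching on the vertex set `A` -/
def IsM (A : Finset α) (l : List (Sym2 α)) : Prop :=
  (∀ e ∈ l, ¬ e.IsDiag ∧ ∀ a ∈ e, a ∈ A) ∧ l.Pairwise Disj

theorem isM_cons {A : Finset α} {e : Sym2 α} {l : List (Sym2 α)} :
    IsM A (e :: l) ↔ (¬ e.IsDiag ∧ ∀ a ∈ e, a ∈ A) ∧ (∀ f ∈ l, Disj e f) ∧ IsM A l := by
  simp only [IsM, List.mem_cons, forall_eq_or_imp, List.pairwise_cons]
  tauto

theorem IsM.perm {A : Finset α} {l l' : List (Sym2 α)} (h : IsM A l) (hp : l.Perm l') :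
    IsM A l' := by
  refine ⟨fun e he => h.1 e (hp.mem_iff.2 he), ?_⟩
  exact (hp.pairwise_iff (fun {x y} hxy => Disj.symm hxy)).1 h.2

theorem IsM.mono {A B : Finset α} {l : List (Sym2 α)} (h : IsM A l) (hAB : A ⊆ B) : IsM B l :=
  ⟨fun e he => ⟨(h.1 e he).1, fun a ha => hAB ((h.1 e he).2 a ha)⟩, h.2⟩

theorem IsM.map {β : Type*} [DecidableEq β] {A : Finset α} {l : List (Sym2 α)} (h : IsM A l)
    (g : α → β) (hg : Function.Injective g) (B : Finset β) (hB : ∀ a ∈ A, g a ∈ B) :
    IsM B (l.map (Sym2.map g)) := by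
  constructor
  · intro e he
    rw [List.mem_map] at he
    obtain ⟨e', he', rfl⟩ := he
    obtain ⟨h1, h2⟩ := h.1 e' he'
    constructor
    · induction e' with
      | h x y =>
        simp only [Sym2.map_mk, Sym2.mk_isDiag_iff] at h1 ⊢
        exact fun h3 => h1 (hg h3)
    · intro a ha
      rw [Sym2.mem_map] at ha
      obtain ⟨b, hb, rfl⟩ := ha
      exact hB b (h2 b hb)
  · rw [List.pairwise_map]
    refine h.2.imp ?_
    intro e f hef a ha hb
    rw [Sym2.mem_map] at ha hb
    obtain ⟨x, hx, rfl⟩ := ha
    obtain ⟨y, hy, hxy⟩ := hb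
    have := hg hxy
    subst this
    exact hef y hx hy

/-- An alternating integer function on lists of edges supported on the matchings of size `r`
on the vertex set `A`. -/
structure IsC (A : Finset α) (r : ℕ) (f : List (Sym2 α) → ℤ) : Prop where
  alt : Alt f
  supp : ∀ l, f l ≠ 0 → IsM A l ∧ l.length = r

theorem IsC.zero_of_not {A : Finset α} {r : ℕ} {f : List (Sym2 α) → ℤ} (h : IsC A r f)
    {l : List (Sym2 α)} (hl : ¬ IsM A l) : f l = 0 := by
  by_contra h1
  exact hl (h.supp l h1).1

theorem IsC.zero_of_mem {A : Finset α} {r : ℕ} {f : List (Sym2 α) → ℤ} (h : IsC A r f)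
    {l : List (Sym2 α)} {e : Sym2 α} (he : e ∈ l) {a : α} (ha : a ∈ e) (haA : a ∉ A) :
    f l = 0 :=
  h.zero_of_not fun hM => haA ((hM.1 e he).2 a ha)

theorem IsC.neg {A : Finset α} {r : ℕ} {f : List (Sym2 α) → ℤ} (h : IsC A r f) :
    IsC A r (fun l => - f l) :=
  ⟨h.alt.neg, fun l hl => h.supp l (by simpa using hl)⟩

theorem IsC.smul {A : Finset α} {r : ℕ} {f : List (Sym2 α) → ℤ} (h : IsC A r f) (c : ℤ) :
    IsC A r (fun l => c * f l) :=
  ⟨by simpa using h.alt.zsmul c, fun l hl => h.supp l (fun h0 => hl (by simp [h0]))⟩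

theorem IsC.add {A : Finset α} {r : ℕ} {f g : List (Sym2 α) → ℤ} (h : IsC A r f)
    (h' : IsC A r g) : IsC A r (fun l => f l + g l) := by
  refine ⟨h.alt.add h'.alt, fun l hl => ?_⟩
  by_cases h1 : f l = 0
  · exact h'.supp l (fun h2 => hl (by simp [h1, h2]))
  · exact h.supp l h1

theorem IsC.sum {ι : Type*} (s : Finset ι) {A : Finset α} {r : ℕ}
    {f : ι → List (Sym2 α) → ℤ} (h : ∀ i ∈ s, IsC A r (f i)) :
    IsC A r (fun l => ∑ i ∈ s, f i l) := by
  refine ⟨Alt.sum s fun i hi => (h i hi).alt, fun l hl => ?_⟩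
  obtain ⟨i, hi, hne⟩ := Finset.exists_ne_zero_of_sum_ne_zero hl
  exact (h i hi).supp l hne

variable [Fintype α]

/-- the boundary operator -/
def bd (f : List (Sym2 α) → ℤ) (l : List (Sym2 α)) : ℤ := ∑ x : Sym2 α, f (x :: l)

theorem IsC.bd {A : Finset α} {r : ℕ} {f : List (Sym2 α) → ℤ} (h : IsC A (r + 1) f) :
    IsC A r (bd f) := by
  refine ⟨Alt.sum _ fun x _ => h.alt.cons x, fun l hl => ?_⟩
  obtain ⟨x, _, hne⟩ := Finset.exists_ne_zero_of_sum_ne_zero hl
  obtain ⟨h1, h2⟩ := h.supp _ hne
  rw [isM_cons] at h1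
  exact ⟨h1.2.2, by simpa using h2⟩

theorem bd_bd {f : List (Sym2 α) → ℤ} (h : Alt f) (l : List (Sym2 α)) : bd (bd f) l = 0 := by
  have h1 : bd (bd f) l = - bd (bd f) l := by
    unfold bd
    conv_lhs => rw [Finset.sum_comm]
    rw [← Finset.sum_neg_distrib]
    refine Finset.sum_congr rfl fun x _ => ?_
    rw [← Finset.sum_neg_distrib]
    refine Finset.sum_congr rfl fun y _ => ?_
    exact h [] x y l
  linarith

/-- The matching complex on the vertex set `A` has an element of order five in the homology of
the chain group of matchings with `r` edges. -/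
def HasTor (A : Finset α) (r : ℕ) : Prop :=
  ∃ z w : List (Sym2 α) → ℤ, IsC A r z ∧ IsC A (r + 1) w ∧ (∀ l, bd w l = 5 * z l) ∧
    ∀ y, IsC A (r + 1) y → ¬ ∀ l, bd y l = z l

end Matching

end Pool.Agent.Helper45.MC
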