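import Pool.Agent.Helper45.MC.Wreath

set_option autoImplicit false
set_option linter.unusedSectionVars false
set_option linter.unusedVariables false

namespace Pool.Agent.Helper45.MC

open Finset

/-- block number `i` -/
def bk : ℕ → Bl
  | 0 => Sum.inl 0
  | 1 => Sum.inl 1
  | 2 => Sum.inl 2
  | 3 => Sum.inl 3
  | 4 => Sum.inr 0
  | 5 => Sum.inr 1
  | _ => Sum.inr 2

/-- number of a block -/
def bn : Bl → ℕ
  | Sum.inl i => i.val
  | Sum.inr i => i.val + 4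

/-- the point with code `c` -/
def pc (c : ℕ) : Pt := (bk (c / 2), c % 2 == 1)

/-- edges from codes -/
def ed (L : List (ℕ × ℕ)) : List (Sym2 Pt) := L.map (fun p => s(pc p.1, pc p.2))

/-- index from data -/
def mkIx (a : List (Fin 4 × Fin 4)) (b : List (Fin 3 × Fin 3)) (f : List ℕ) : Ix :=
  (((a.map fun p => Equiv.swap p.1 p.2).prod, (b.map fun p => Equiv.swap p.1 p.2).prod),
    fun i => decide (bn i ∈ f))

/-- element of the wreath product from data -/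
def mkW (a : List (ℕ × ℕ)) (f : List ℕ) : Equiv.Perm Pt :=
  wr (a.map fun p => Equiv.swap (bk p.1) (bk p.2)).prod (fun i => decide (bn i ∈ f))

/-- the thirteen types of six-edge matchings with their coefficients -/
def Tdata : List (ℤ × List (ℕ × ℕ)) :=
  [(1, [(0, 1), (2, 4), (3, 8), (5, 10), (6, 9), (7, 11)]),
   (-2, [(0, 1), (2, 4), (3, 8), (5, 10), (6, 9), (7, 12)]),
   (2, [(0, 1), (2, 8), (3, 10), (4, 9), (5, 11), (6, 12)]),
   (-2, [(0, 1), (2, 8), (3, 10), (4, 9), (5, 11), (12, 13)]),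
   (-1, [(0, 1), (2, 8), (3, 10), (4, 9), (6, 11), (12, 13)]),
   (2, [(0, 2), (1, 8), (3, 10), (4, 9), (5, 11), (6, 12)]),
   (-1, [(0, 2), (1, 8), (3, 10), (4, 9), (5, 11), (12, 13)]),
   (1, [(0, 2), (1, 8), (3, 10), (4, 9), (5, 12), (6, 11)]),
   (2, [(0, 2), (1, 8), (3, 10), (4, 9), (5, 12), (6, 13)]),
   (1, [(0, 2), (1, 8), (3, 10), (4, 9), (6, 11), (12, 13)]),
   (2, [(0, 2), (1, 8), (4, 9), (5, 10), (6, 11), (12, 13)]),
   (-2, [(0, 2), (1, 8), (4, 10), (5, 12), (6, 11), (7, 13)]),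
   (2, [(0, 2), (4, 8), (5, 10), (6, 9), (7, 11), (12, 13)])]

/-- the twenty-two types of five-edge matchings -/
def Rdata : List (List (ℕ × ℕ)) :=
  [[(0, 2), (1, 8), (3, 10), (4, 9), (5, 11)],
   [(0, 1), (2, 8), (3, 10), (4, 9), (6, 11)],
   [(0, 1), (2, 4), (3, 8), (6, 9), (7, 10)],
   [(0, 1), (2, 4), (3, 8), (5, 10), (6, 9)],
   [(0, 2), (1, 8), (3, 10), (4, 9), (5, 12)],
   [(0, 1), (2, 8), (3, 10), (4, 9), (6, 12)],
   [(0, 8), (1, 10), (2, 9), (3, 11), (4, 12)],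
   [(0, 1), (2, 8), (3, 10), (4, 9), (5, 11)],
   [(0, 8), (1, 10), (2, 9), (3, 11), (12, 13)],
   [(0, 1), (2, 8), (3, 10), (4, 9), (12, 13)],
   [(0, 8), (1, 10), (2, 9), (4, 11), (12, 13)],
   [(0, 8), (1, 10), (2, 9), (4, 11), (6, 12)],
   [(0, 2), (1, 8), (4, 9), (5, 10), (6, 12)],
   [(0, 2), (1, 8), (3, 10), (4, 9), (6, 12)],
   [(0, 2), (1, 8), (4, 9), (5, 10), (12, 13)],
   [(0, 2), (1, 8), (3, 10), (4, 9), (12, 13)],
   [(0, 2), (1, 8), (3, 10), (4, 9), (6, 11)],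
   [(0, 2), (1, 8), (4, 10), (5, 12), (6, 11)],
   [(0, 2), (1, 8), (4, 9), (5, 10), (6, 11)],
   [(0, 2), (1, 8), (4, 9), (6, 10), (12, 13)],
   [(0, 2), (4, 8), (5, 10), (6, 9), (12, 13)],
   [(0, 2), (4, 8), (5, 10), (6, 9), (7, 11)]]

/-- one line for each face: target type, sign (zero if the symmetrised face vanishes), and a
permutation of the blocks and flips -/
def Cdata : List (ℕ × ℤ × List (Fin 4 × Fin 4) × List (Fin 3 × Fin 3) × List ℕ) :=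
  [(0, 1, [(0, 3), (1, 3), (2, 3)], [], []),
   (1, 1, [(1, 2), (2, 3)], [], [1, 2, 4, 5]),
   (2, -1, [(1, 2)], [(0, 1)], [3, 4]),
   (2, 1, [], [], [5]),
   (3, -1, [(1, 2)], [(0, 1)], [3]),
   (3, 1, [], [], []),
   (4, 1, [(0, 3), (1, 3), (2, 3)], [], []),
   (5, 1, [(1, 2), (2, 3)], [(1, 2)], [1, 2, 4]),
   (0, 0, [], [(0, 2)], [3, 4, 6]),
   (2, 1, [], [(1, 2)], []),
   (0, 0, [(1, 2)], [(0, 1)], []),
   (3, 1, [], [], []),
   (6, 1, [(0, 3), (1, 3), (2, 3)], [], []),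
   (5, -1, [(1, 2)], [(0, 1)], [1, 2, 4, 5]),
   (5, 1, [(1, 2)], [], [4, 5]),
   (5, -1, [], [(0, 1)], [1, 2]),
   (5, 1, [], [], []),
   (7, 1, [], [], []),
   (8, 1, [(0, 2), (1, 2)], [], []),
   (9, -1, [(1, 2)], [(0, 1)], [1, 2, 4, 5]),
   (9, 1, [(1, 2)], [], [4, 5]),
   (9, -1, [], [(0, 1)], [1, 2]),
   (9, 1, [], [], []),
   (7, 1, [], [], []),
   (10, 1, [(0, 3), (1, 3), (2, 3)], [], []),
   (0, 0, [(1, 3)], [], [1, 3, 5]),
   (0, 0, [(1, 2)], [], [4]),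
   (9, -1, [(2, 3)], [(0, 1)], [1]),
   (9, 1, [], [], []),
   (1, 1, [], [], []),
   (11, 1, [(0, 1), (1, 2)], [], [0, 1, 4, 5]),
   (12, -1, [(0, 1)], [(0, 1)], [2, 4]),
   (12, 1, [], [], [5]),
   (13, -1, [(0, 1)], [(0, 1)], [2]),
   (13, 1, [], [], []),
   (0, 1, [], [], []),
   (10, 1, [(0, 1), (1, 2)], [], [0, 1, 4, 5]),
   (14, -1, [(0, 1)], [(0, 1)], [2, 4]),
   (14, 1, [], [], [5]),
   (15, -1, [(0, 1)], [(0, 1)], [2]),
   (15, 1, [], [], []),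
   (0, 1, [], [], []),
   (0, 0, [(1, 3)], [], [1, 3, 5]),
   (0, 0, [], [(0, 2)], [2, 4, 6]),
   (12, 1, [], [(1, 2)], [5]),
   (13, 1, [(0, 1), (2, 3)], [(0, 1)], [2]),
   (16, 1, [], [], []),
   (4, 1, [], [], []),
   (11, -1, [(0, 1), (1, 3), (2, 3)], [(1, 2)], [0, 1, 4]),
   (17, -1, [(0, 1)], [(0, 2), (1, 2)], [2, 4]),
   (18, 1, [], [(1, 2)], []),
   (0, 0, [(2, 3)], [], [2, 3, 6]),
   (13, 1, [], [], [6]),
   (4, 1, [], [], []),
   (0, 0, [(1, 3)], [], [1, 3, 5]),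
   (19, -1, [(0, 1), (2, 3)], [(0, 1)], [4]),
   (19, 1, [], [], [5]),
   (15, -1, [(0, 1), (2, 3)], [(0, 1)], []),
   (15, 1, [], [], []),
   (16, 1, [], [], []),
   (10, 1, [(0, 1), (1, 3), (2, 3)], [], [0, 4]),
   (20, -1, [], [(0, 1)], [2, 4]),
   (0, 0, [(2, 3)], [], [2, 3, 5]),
   (19, 1, [], [], [5]),
   (14, 1, [], [], []),
   (18, 1, [], [], []),
   (6, 1, [(0, 2), (1, 3)], [(0, 2), (1, 2)], [0]),
   (21, 1, [], [(0, 2), (1, 2)], []),
   (17, -1, [(2, 3)], [(1, 2)], [2, 3, 5, 6]),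
   (17, 1, [(2, 3)], [], [5, 6]),
   (17, -1, [], [(1, 2)], [2, 3]),
   (17, 1, [], [], []),
   (8, 1, [(0, 2), (1, 3)], [], []),
   (20, -1, [(2, 3)], [(0, 1)], [2, 3, 4, 5]),
   (20, 1, [(2, 3)], [], [4, 5]),
   (20, -1, [], [(0, 1)], [2, 3]),
   (20, 1, [], [], []),
   (21, 1, [], [], [])]

/-- types of six-edge matchings with coefficients -/
def Tl : List (ℤ × List (Sym2 Pt)) := Tdata.map fun p => (p.1, ed p.2)

/-- the representative of the type `m` -/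
def rp (m : ℕ) : List (Sym2 Pt) := ed (Rdata.getD m [])

/-- all faces -/
def Fl : List (ℤ × List (Sym2 Pt)) :=
  Tl.flatMap fun p => (faces p.2).map fun q => (p.1 * q.1, q.2)

/-- check of one line of the certificate -/
def okc (f : List (Sym2 Pt)) (c : ℕ × ℤ × List (Fin 4 × Fin 4) × List (Fin 3 × Fin 3) × List ℕ) :
    Bool :=
  if c.2.1 = 0 then
    decide (sgl (ac (tp (mkIx c.2.2.1 c.2.2.2.1 c.2.2.2.2)) f) f = -1)
  else
    decide (sgl (ac (tp (mkIx c.2.2.1 c.2.2.2.1 c.2.2.2.2)) f) (rp c.1) = c.2.1)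

theorem okc_spec (f : List (Sym2 Pt))
    (c : ℕ × ℤ × List (Fin 4 × Fin 4) × List (Fin 3 × Fin 3) × List ℕ) (h : okc f c = true)
    (l : List (Sym2 Pt)) : Ss f l = c.2.1 * Ss (rp c.1) l := by
  unfold okc at h
  by_cases h0 : c.2.1 = 0
  · rw [if_pos h0] at h
    have h1 := of_decide_eq_true h
    have h2 := sgl_spec _ _ (fun t => Ss t l) (alt_Ss_left l) (by rw [h1]; norm_num)
    rw [h1, Ss_ac] at h2
    rw [h0, zero_mul]
    linarith
  · rw [if_neg h0] at h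
    have h1 := of_decide_eq_true h
    have h2 := sgl_spec _ _ (fun t => Ss t l) (alt_Ss_left l) (by rw [h1]; exact h0)
    rw [h1, Ss_ac] at h2
    rcases sgl_sq_cases (ac (tp (mkIx c.2.2.1 c.2.2.2.1 c.2.2.2.2)) f) (rp c.1) with h3 | h3 | h3
    · rw [h1] at h3; exact absurd h3 h0
    · rw [h1] at h3; rw [h2, h3]; ring
    · rw [h1] at h3; rw [h2, h3]; ring

theorem okc_all : (Fl.length = Cdata.length) ∧ ((Fl.zip Cdata).all fun p => okc p.1.2 p.2) = true := by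
  decide +kernel

end Pool.Agent.Helper45.MC
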