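import Pool.Agent.Helper45.MC.Basic

set_option autoImplicit false
set_option linter.unusedSectionVars false
set_option linter.unusedVariables false

namespace Pool.Agent.Helper45.MC

open Finset

section Mono

variable {E : Type*} [DecidableEq E]

/-- the elementary alternating function of a list -/
def mono : List E → List E → ℤ
  | [], l => if l = [] then 1 else 0
  | x :: t, l => wedge x l (mono t)

theorem alt_mono (t : List E) : Alt (mono t) := by
  induction t with
  | nil =>
    intro a x y b
    simp [mono]
  | cons x t ih => exact alt_wedge x ih

theorem mono_ne_zero (t : List E) : ∀ l, mono t l ≠ 0 → l.Perm t := by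
  induction t with
  | nil =>
    intro l h
    simp only [mono] at h
    split_ifs at h with h1
    · rw [h1]
    · exact absurd rfl h
  | cons x t ih =>
    intro l h
    obtain ⟨a, b, rfl, h2⟩ := wedge_ne_zero x l _ h
    exact List.perm_middle.trans ((ih _ h2).cons x)

theorem wedge_wedge (x y : E) : ∀ (l : List E) (f : List E → ℤ),
    wedge x l (fun l' => wedge y l' f) = - wedge y l (fun l' => wedge x l' f) := by
  intro l
  induction l with
  | nil => intro f; rfl
  | cons a l ih =>
    intro f
    simp only [wedge]
    have h1 : ∀ (u v : E), wedge u l (fun l' => (if a = v then f l' else 0) -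
        wedge v l' (fun l'' => f (a :: l''))) = (if a = v then wedge u l f else 0) -
        wedge u l (fun l' => wedge v l' (fun l'' => f (a :: l''))) := by
      intro u v
      have h2 : wedge u l (fun l' => (if a = v then f l' else 0) -
        wedge v l' (fun l'' => f (a :: l''))) = wedge u l (fun l' => (if a = v then f l' else 0) +
        - wedge v l' (fun l'' => f (a :: l''))) := wedge_congr u l fun l' => by ring
      rw [h2, wedge_add, wedge_neg]
      split_ifs with h3
      · ring
      · rw [wedge_zero]; ring
    rw [h1, h1, ih]
    ring

theorem alt_mono_left (l : List E) : Alt (fun t => mono t l) := by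
  have main : ∀ (a : List E) (x y : E) (b l : List E),
      mono (a ++ x :: y :: b) l = - mono (a ++ y :: x :: b) l := by
    intro a
    induction a with
    | nil =>
      intro x y b l
      exact wedge_wedge x y l (mono b)
    | cons c a ih =>
      intro x y b l
      show wedge c l (mono (a ++ x :: y :: b)) = - wedge c l (mono (a ++ y :: x :: b))
      rw [← wedge_neg]
      exact wedge_congr c l fun l' => ih x y b l'
  intro a x y b
  exact main a x y b l

theorem wedge_map {E' : Type*} [DecidableEq E'] (g : E → E') (hg : Function.Injective g) (x : E) :
    ∀ (l : List E) (f : List E' → ℤ),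
    wedge (g x) (l.map g) f = wedge x l (fun l' => f (l'.map g)) := by
  intro l
  induction l with
  | nil => intro f; rfl
  | cons y l ih =>
    intro f
    simp only [List.map_cons, wedge]
    rw [ih]
    congr 1
    by_cases h : y = x
    · simp [h]
    · rw [if_neg h, if_neg (fun h' => h (hg h'))]

theorem mono_map {E' : Type*} [DecidableEq E'] (g : E → E') (hg : Function.Injective g)
    (t : List E) : ∀ l, mono (t.map g) (l.map g) = mono t l := by
  induction t with
  | nil =>
    intro l
    simp [mono]
  | cons x t ih =>
    intro l
    simp only [List.map_cons, mono]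
    rw [wedge_map g hg]
    exact wedge_congr x l fun l' => ih l'

/-- signed faces of a list -/
def faces : List E → List (ℤ × List E)
  | [] => []
  | x :: t => (1, t) :: (faces t).map (fun p => (-p.1, x :: p.2))

theorem faces_map {E' : Type*} (g : E → E') (t : List E) :
    faces (t.map g) = (faces t).map (fun p => (p.1, p.2.map g)) := by
  induction t with
  | nil => rfl
  | cons x t ih =>
    simp only [List.map_cons, faces, ih, List.map_map]
    rfl

theorem wedge_listSum {ι : Type*} (x : E) (l : List E) (L : List ι) (f : ι → List E → ℤ) :
    wedge x l (fun l' => (L.map (fun i => f i l')).sum) = (L.map (fun i => wedge x l (f i))).sum := by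
  induction L with
  | nil => simp [wedge_zero]
  | cons a L ih =>
    simp only [List.map_cons, List.sum_cons]
    rw [wedge_add, ih]

theorem sum_mono [Fintype E] (t : List E) : ∀ l,
    ∑ x : E, mono t (x :: l) = ((faces t).map (fun p => p.1 * mono p.2 l)).sum := by
  induction t with
  | nil =>
    intro l
    simp [mono, faces]
  | cons x t ih =>
    intro l
    simp only [mono, wedge, faces, List.map_cons, List.sum_cons, one_mul, List.map_map]
    rw [Finset.sum_sub_distrib, Finset.sum_ite_eq' Finset.univ x, if_pos (Finset.mem_univ x),
      ← wedge_sum]
    have h1 : wedge x l (fun l' => ∑ i : E, mono t (i :: l')) =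
        ((faces t).map (fun p => p.1 * wedge x l (mono p.2))).sum := by
      rw [wedge_congr x l (fun l' => ih l')]
      rw [wedge_listSum]
      congr 1
      refine List.map_congr_left fun p _ => ?_
      rw [wedge_mul]
    rw [h1, sub_eq_add_neg]
    congr 1
    rw [← neg_one_mul, ← List.sum_map_mul_left]
    congr 1
    refine List.map_congr_left fun p _ => ?_
    simp [mono]

/-- the sign of the rearrangement of the list `l` into the list `l'` (zero if there is none) -/
def sgl : List E → List E → ℤ
  | [], [] => 1
  | [], _ :: _ => 0
  | x :: l, l' => if x ∈ l' then (-1) ^ (l'.idxOf x) * sgl l (l'.erase x) else 0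

theorem sgl_spec (l : List E) : ∀ (l' : List E) (F : List E → ℤ), Alt F → sgl l l' ≠ 0 →
    F l' = sgl l l' * F l := by
  induction l with
  | nil =>
    intro l' F hF h
    cases l' with
    | nil => simp [sgl]
    | cons a l' => exact absurd rfl h
  | cons x l ih =>
    intro l' F hF h
    simp only [sgl] at h ⊢
    by_cases hx : x ∈ l'
    · rw [if_pos hx] at h ⊢
      have h1 : sgl l (l'.erase x) ≠ 0 := right_ne_zero_of_mul h
      have h2 := ih (l'.erase x) (fun l => F (x :: l)) (hF.cons x) h1
      obtain ⟨a, b, hab, hl', her⟩ : ∃ a b, x ∉ a ∧ l' = a ++ x :: b ∧ l'.erase x = a ++ b :=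
        List.exists_erase_eq hx
      have h3 : l'.idxOf x = a.length := by
        rw [hl', List.idxOf_append_of_notMem hab]
        simp
      have h4 := hF.front' x a b
      rw [← hl'] at h4
      rw [her] at h2
      rw [h4, h3, her, h2]
      simp only [smul_eq_mul]
      ring
    · rw [if_neg hx] at h
      exact absurd rfl h

theorem sgl_sq_cases (l : List E) : ∀ l' : List E, sgl l l' = 0 ∨ sgl l l' = 1 ∨ sgl l l' = -1 := by
  induction l with
  | nil =>
    intro l'
    cases l' with
    | nil => right; left; rfl
    | cons a l' => left; rfl
  | cons x l ih =>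
    intro l'
    simp only [sgl]
    by_cases hx : x ∈ l'
    · rw [if_pos hx]
      rcases neg_one_pow_eq_or ℤ (l'.idxOf x) with h | h <;> rcases ih (l'.erase x) with h' | h' | h'
        <;> rw [h, h'] <;> simp
    · rw [if_neg hx]; left; rfl

end Mono

end Pool.Agent.Helper45.MC
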