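import Pool.Agent.Helper45.MC.Basic

set_option autoImplicit false
set_option linter.unusedSectionVars false
set_option linter.unusedVariables false

namespace Pool.Agent.Helper45.MC

open Finset

variable {α : Type*} [DecidableEq α]

/-- relabel a list of edges by the transposition of `b` and `v` -/
def sw (b v : α) (l : List (Sym2 α)) : List (Sym2 α) := l.map (Sym2.map (Equiv.swap b v))

/-- restriction of `f` to the lists of edges avoiding `b` -/
def restr (b : α) (f : List (Sym2 α) → ℤ) (l : List (Sym2 α)) : ℤ :=
  if ∀ e ∈ l, b ∉ e then f l else 0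

/-- the chain map raising the number of vertices by two -/
def Y (A : Finset α) (v w : α) (f : List (Sym2 α) → ℤ) (l : List (Sym2 α)) : ℤ :=
  ∑ b ∈ A, (wedge s(w, b) l (fun l' => f (sw b v l')) - wedge s(v, b) l (restr b f))

theorem mem_swap_map {b v : α} {e : Sym2 α} {a : α} :
    a ∈ Sym2.map (Equiv.swap b v) e ↔ Equiv.swap b v a ∈ e := by
  rw [Sym2.mem_map]
  constructor
  · rintro ⟨x, hx, rfl⟩
    simpa using hx
  · intro h
    exact ⟨_, h, by simp⟩

theorem sw_sw (b v : α) (l : List (Sym2 α)) : sw b v (sw b v l) = l := by
  unfold sw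
  rw [List.map_map]
  have : Sym2.map (Equiv.swap b v) ∘ Sym2.map (Equiv.swap b v) = (id : Sym2 α → Sym2 α) := by
    funext e
    induction e with
    | h x y => simp
  rw [this, List.map_id]

theorem sw_cons (b v : α) (e : Sym2 α) (l : List (Sym2 α)) :
    sw b v (e :: l) = Sym2.map (Equiv.swap b v) e :: sw b v l := rfl

theorem sw_append (b v : α) (l l' : List (Sym2 α)) :
    sw b v (l ++ l') = sw b v l ++ sw b v l' := by
  simp [sw]

theorem sw_eq_self {b v : α} {l : List (Sym2 α)} (hb : ∀ e ∈ l, b ∉ e) (hv : ∀ e ∈ l, v ∉ e) :
    sw b v l = l := by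
  unfold sw
  conv_rhs => rw [← List.map_id l]
  refine List.map_congr_left fun e he => ?_
  have h1 := hb e he
  have h2 := hv e he
  induction e with
  | h x y =>
    simp only [Sym2.mem_iff, not_or] at h1 h2
    simp only [Sym2.map_mk, id]
    rw [Equiv.swap_apply_of_ne_of_ne (Ne.symm h1.1) (Ne.symm h2.1),
      Equiv.swap_apply_of_ne_of_ne (Ne.symm h1.2) (Ne.symm h2.2)]

theorem alt_restr (b : α) {f : List (Sym2 α) → ℤ} (hf : Alt f) : Alt (restr b f) := by
  intro a x y c
  unfold restr
  have h1 : (∀ e ∈ a ++ x :: y :: c, b ∉ e) ↔ (∀ e ∈ a ++ y :: x :: c, b ∉ e) := by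
    simp only [List.mem_append, List.mem_cons]
    constructor
    · intro h e he
      exact h e (by tauto)
    · intro h e he
      exact h e (by tauto)
  by_cases h2 : ∀ e ∈ a ++ x :: y :: c, b ∉ e
  · rw [if_pos h2, if_pos (h1.1 h2), hf]
  · rw [if_neg h2, if_neg (fun h => h2 (h1.2 h)), neg_zero]

theorem alt_Y (A : Finset α) (v w : α) {f : List (Sym2 α) → ℤ} (hf : Alt f) :
    Alt (Y A v w f) := by
  unfold Y
  refine Alt.sum A fun b _ => ?_
  exact (alt_wedge _ (hf.map _)).sub (alt_wedge _ (alt_restr b hf))

section Eval

variable {A : Finset α} {v w : α} {r : ℕ} {f : List (Sym2 α) → ℤ}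

theorem isC_sw (hv : v ∉ A) (hw : w ∉ A) (hvw : v ≠ w) {b : α} (hb : b ∈ A) (hf : IsC A r f) :
    IsC (insert v (A.erase b)) r (fun l => f (sw b v l)) := by
  refine ⟨hf.alt.map _, fun l hl => ?_⟩
  obtain ⟨h1, h2⟩ := hf.supp _ hl
  refine ⟨?_, by simpa [sw] using h2⟩
  have h3 := h1.map (Equiv.swap b v) (Equiv.swap b v).injective (insert v (A.erase b)) (by
    intro a ha
    by_cases hab : a = b
    · subst hab
      simp
    · have hav : a ≠ v := fun h => hv (h ▸ ha)
      rw [Equiv.swap_apply_of_ne_of_ne hab hav]
      simp [hab, ha])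
  have h4 := sw_sw b v l
  unfold sw at h4 h3
  rwa [h4] at h3

theorem isC_restr {b : α} (hb : b ∈ A) (hf : IsC A r f) :
    IsC (A.erase b) r (restr b f) := by
  refine ⟨alt_restr b hf.alt, fun l hl => ?_⟩
  unfold restr at hl
  split_ifs at hl with h
  · obtain ⟨h1, h2⟩ := hf.supp _ hl
    refine ⟨⟨fun e he => ⟨(h1.1 e he).1, fun a ha => ?_⟩, h1.2⟩, h2⟩
    rw [Finset.mem_erase]
    exact ⟨fun hab => h e he (hab ▸ ha), (h1.1 e he).2 a ha⟩
  · exact absurd rfl hl

theorem isC_wedge {B : Finset α} {g : List (Sym2 α) → ℤ} {x y : α} (hxy : x ≠ y)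
    (hx : x ∉ B) (hy : y ∉ B) (hg : IsC B r g) :
    IsC (insert x (insert y B)) (r + 1) (fun l => wedge s(x, y) l g) := by
  refine ⟨alt_wedge _ hg.alt, fun l hl => ?_⟩
  obtain ⟨a, b, rfl, hne⟩ := wedge_ne_zero _ _ _ hl
  obtain ⟨h1, h2⟩ := hg.supp _ hne
  have h3 : IsM (insert x (insert y B)) (s(x, y) :: (a ++ b)) := by
    rw [isM_cons]
    refine ⟨⟨by simpa using hxy, ?_⟩, ?_, h1.mono ?_⟩
    · intro c hc
      simp only [Sym2.mem_iff] at hc
      rcases hc with rfl | rfl <;> simp
    · intro e he c hc hce
      have := (h1.1 e he).2 c hce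
      simp only [Sym2.mem_iff] at hc
      rcases hc with rfl | rfl
      · exact hx this
      · exact hy this
    · intro c hc
      simp [hc]
  refine ⟨h3.perm ?_, ?_⟩
  · exact List.perm_middle.symm
  · simp only [List.length_append, List.length_cons] at h2 ⊢
    omega

theorem IsC.mono {B : Finset α} (hf : IsC A r f) (hAB : A ⊆ B) : IsC B r f :=
  ⟨hf.alt, fun l hl => ⟨(hf.supp l hl).1.mono hAB, (hf.supp l hl).2⟩⟩

theorem isC_Y (hv : v ∉ A) (hw : w ∉ A) (hvw : v ≠ w) (hf : IsC A r f) :
    IsC (insert v (insert w A)) (r + 1) (Y A v w f) := by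
  unfold Y
  refine IsC.sum A fun b hb => ?_
  have hbw : w ≠ b := fun h => hw (h ▸ hb)
  have hbv : v ≠ b := fun h => hv (h ▸ hb)
  have h1 : IsC (insert v (insert w A)) (r + 1)
      (fun l => wedge s(w, b) l (fun l' => f (sw b v l'))) := by
    refine (isC_wedge hbw ?_ ?_ (isC_sw hv hw hvw hb hf)).mono ?_
    · simp [Ne.symm hvw, hw]
    · simp [Ne.symm hbv]
    · intro c hc
      simp only [Finset.mem_insert, Finset.mem_erase] at hc ⊢
      rcases hc with rfl | rfl | rfl | h
      · simp
      · exact Or.inr (Or.inr hb)
      · simp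
      · exact Or.inr (Or.inr h.2)
  have h2 : IsC (insert v (insert w A)) (r + 1)
      (fun l => wedge s(v, b) l (restr b f)) := by
    refine (isC_wedge hbv ?_ ?_ (isC_restr hb hf)).mono ?_
    · simp [hv]
    · simp
    · intro c hc
      simp only [Finset.mem_insert, Finset.mem_erase] at hc ⊢
      rcases hc with rfl | rfl | h
      · simp
      · exact Or.inr (Or.inr hb)
      · exact Or.inr (Or.inr h.2)
  simpa [sub_eq_add_neg] using h1.add h2.neg

theorem sym2_mk_eq_left {a b c : α} : s(a, b) = s(a, c) ↔ b = c := Sym2.congr_right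

theorem Y_w (hv : v ∉ A) (hw : w ∉ A) (hvw : v ≠ w) (hf : IsC A r f) (b : α)
    (l : List (Sym2 α)) :
    Y A v w f (s(w, b) :: l) = if b ∈ A then f (sw b v l) else 0 := by
  unfold Y
  have key : ∀ b' ∈ A, (wedge s(w, b') (s(w, b) :: l) (fun l' => f (sw b' v l')) -
      wedge s(v, b') (s(w, b) :: l) (restr b' f)) = if b = b' then f (sw b' v l) else 0 := by
    intro b' hb'
    have hbw : w ≠ b' := fun h => hw (h ▸ hb')
    have hbv : v ≠ b' := fun h => hv (h ▸ hb')
    rw [wedge_cons_of_zero, wedge_cons_of_zero]
    · have h1 : s(w, b) ≠ s(v, b') := by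
        simp only [ne_eq, Sym2.eq_iff, not_or, not_and]
        exact ⟨fun h => absurd h.symm hvw, fun h => absurd h hbw⟩
      rw [if_neg h1, sub_zero]
      simp only [sym2_mk_eq_left]
    · intro l'
      unfold restr
      split_ifs
      · exact hf.zero_of_mem (e := s(w, b)) (by simp) (a := w) (by simp) hw
      · rfl
    · intro l'
      refine hf.zero_of_mem (e := Sym2.map (Equiv.swap b' v) s(w, b)) ?_ (a := w) ?_ hw
      · rw [sw_cons]
        simp
      · rw [mem_swap_map, Equiv.swap_apply_of_ne_of_ne hbw (Ne.symm hvw)]
        simp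
  rw [Finset.sum_congr rfl key]
  rw [Finset.sum_ite_eq]

theorem Y_v (hv : v ∉ A) (hw : w ∉ A) (hvw : v ≠ w) (hf : IsC A r f) (c : α) (hc : c ≠ w)
    (l : List (Sym2 α)) (hl : ∀ e ∈ l, w ∉ e) :
    Y A v w f (s(v, c) :: l) = - if c ∈ A then restr c f l else 0 := by
  unfold Y
  have key : ∀ b' ∈ A, (wedge s(w, b') (s(v, c) :: l) (fun l' => f (sw b' v l')) -
      wedge s(v, b') (s(v, c) :: l) (restr b' f)) = - if c = b' then restr b' f l else 0 := by
    intro b' hb'
    have hbw : w ≠ b' := fun h => hw (h ▸ hb')
    have hbv : v ≠ b' := fun h => hv (h ▸ hb')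
    rw [wedge_eq_zero_of_notMem, wedge_cons_of_zero, zero_sub]
    · simp only [sym2_mk_eq_left]
    · intro l'
      unfold restr
      split_ifs
      · exact hf.zero_of_mem (e := s(v, c)) (by simp) (a := v) (by simp) hv
      · rfl
    · intro h
      rw [List.mem_cons] at h
      rcases h with h | h
      · have : w ∈ s(v, c) := by rw [← h]; simp
        simp only [Sym2.mem_iff] at this
        rcases this with h1 | h1
        · exact hvw h1.symm
        · exact hc h1.symm
      · exact hl _ h (by simp)
  rw [Finset.sum_congr rfl key]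
  rw [Finset.sum_neg_distrib, Finset.sum_ite_eq]

theorem Y_none (l : List (Sym2 α)) (hl : ∀ e ∈ l, w ∉ e) (hl' : ∀ e ∈ l, v ∉ e) :
    Y A v w f l = 0 := by
  unfold Y
  refine Finset.sum_eq_zero fun b _ => ?_
  rw [wedge_eq_zero_of_notMem, wedge_eq_zero_of_notMem, sub_zero]
  · exact fun h => hl' _ h (by simp)
  · exact fun h => hl _ h (by simp)

end Eval

section Sum

variable [Fintype α]

theorem sum_split (w : α) (F : Sym2 α → ℤ) :
    ∑ x, F x = ∑ b : α, F s(w, b) + ∑ x ∈ (Finset.univ.filter fun x : Sym2 α => w ∉ x), F x := by
  rw [← Finset.sum_filter_add_sum_filter_not Finset.univ (fun x : Sym2 α => w ∈ x)]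
  congr 1
  have h1 : (Finset.univ.filter fun x : Sym2 α => w ∈ x) =
      (Finset.univ : Finset α).image (fun b => s(w, b)) := by
    ext x
    simp only [Finset.mem_filter, Finset.mem_univ, true_and, Finset.mem_image]
    constructor
    · intro h
      exact ⟨Sym2.Mem.other h, Sym2.other_spec h⟩
    · rintro ⟨b, rfl⟩
      simp
  rw [h1, Finset.sum_image]
  intro a _ b _ hab
  exact sym2_mk_eq_left.1 hab

theorem sum_sw (b v : α) (F : Sym2 α → ℤ) :
    ∑ x, F (Sym2.map (Equiv.swap b v) x) = ∑ x, F x := by
  refine Function.Bijective.sum_comp (e := Sym2.map (Equiv.swap b v)) ?_ F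
  refine Function.Involutive.bijective ?_
  intro e
  induction e with
  | h x y => simp

variable {A : Finset α} {v w : α} {r : ℕ} {f : List (Sym2 α) → ℤ}

theorem bd_Y (hv : v ∉ A) (hw : w ∉ A) (hvw : v ≠ w) (hf : IsC A (r + 1) f)
    (l : List (Sym2 α)) : bd (Y A v w f) l = - Y A v w (bd f) l := by
  have hYf := isC_Y hv hw hvw hf
  have halt1 : Alt (bd (Y A v w f)) := hYf.bd.alt
  have halt2 : Alt (fun l => - Y A v w (bd f) l) := (isC_Y hv hw hvw hf.bd).alt.neg
  by_cases hw1 : ∃ e ∈ l, w ∈ e
  · obtain ⟨e, he, hwe⟩ := hw1
    refine Alt.eq_of_front halt1 halt2 e ?_ l he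
    intro l'
    obtain ⟨b, rfl⟩ : ∃ b, e = s(w, b) := ⟨Sym2.Mem.other hwe, (Sym2.other_spec hwe).symm⟩
    rw [Y_w hv hw hvw hf.bd]
    unfold bd
    have h1 : ∀ x : Sym2 α, Y A v w f (x :: s(w, b) :: l') =
        - if b ∈ A then f (Sym2.map (Equiv.swap b v) x :: sw b v l') else 0 := by
      intro x
      rw [hYf.alt.head, Y_w hv hw hvw hf, sw_cons]
    rw [Finset.sum_congr rfl fun x _ => h1 x, Finset.sum_neg_distrib]
    congr 1
    by_cases hb : b ∈ A
    · simp only [if_pos hb]
      exact sum_sw b v (fun x => f (x :: sw b v l'))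
    · simp [hb]
  · have hwl : ∀ e ∈ l, w ∉ e := fun e he hwe => hw1 ⟨e, he, hwe⟩
    by_cases hv1 : ∃ e ∈ l, v ∈ e
    · obtain ⟨e, he, hve⟩ := hv1
      obtain ⟨c, rfl⟩ : ∃ c, e = s(v, c) := ⟨Sym2.Mem.other hve, (Sym2.other_spec hve).symm⟩
      have hcw : c ≠ w := fun h => hwl _ he (by simp [h])
      -- reduce to lists starting with this edge
      obtain ⟨a, b', rfl⟩ := List.append_of_mem he
      rw [halt1.front', halt2.front']
      congr 1
      set l' := a ++ b' with hl'
      have hwl' : ∀ e ∈ l', w ∉ e := by
        intro e he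
        refine hwl e ?_
        simp only [hl', List.mem_append, List.mem_cons] at he ⊢
        tauto
      have hwl'' : ∀ e ∈ s(v, c) :: l', w ∉ e := by
        intro e he
        rw [List.mem_cons] at he
        rcases he with rfl | he
        · simp only [Sym2.mem_iff, not_or]
          exact ⟨Ne.symm hvw, Ne.symm hcw⟩
        · exact hwl' e he
      rw [Y_v hv hw hvw hf.bd c hcw l' hwl', neg_neg]
      unfold bd
      rw [sum_split w]
      -- the part with `w`
      have h1 : ∀ b : α, Y A v w f (s(w, b) :: s(v, c) :: l') =
          if b ∈ A then f (s(b, Equiv.swap b v c) :: sw b v l') else 0 := by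
        intro b
        rw [Y_w hv hw hvw hf, sw_cons, Sym2.map_mk, Equiv.swap_apply_right]
      rw [Finset.sum_congr rfl fun b _ => h1 b]
      -- the part without `w`
      have h2 : ∀ x ∈ (Finset.univ.filter fun x : Sym2 α => w ∉ x),
          Y A v w f (x :: s(v, c) :: l') = if c ∈ A then restr c f (x :: l') else 0 := by
        intro x hx
        simp only [Finset.mem_filter, Finset.mem_univ, true_and] at hx
        rw [hYf.alt.head, Y_v hv hw hvw hf c hcw, neg_neg]
        intro e he
        rw [List.mem_cons] at he
        rcases he with rfl | he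
        · exact hx
        · exact hwl' e he
      rw [Finset.sum_congr rfl h2]
      by_cases hcA : c ∈ A
      · have hcv : c ≠ v := fun h => hv (h ▸ hcA)
        simp only [if_pos hcA]
        by_cases hcl : ∃ e ∈ l', c ∈ e
        · obtain ⟨e, hel, hce⟩ := hcl
          have h3 : restr c (fun l => ∑ x : Sym2 α, f (x :: l)) l' = 0 := by
            unfold restr
            rw [if_neg]
            intro h
            exact h e hel hce
          have h4 : ∀ x : Sym2 α, restr c f (x :: l') = 0 := by
            intro x
            unfold restr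
            rw [if_neg]
            intro h
            exact h e (by simp [hel]) hce
          have h5 : ∀ b : α, (if b ∈ A then f (s(b, Equiv.swap b v c) :: sw b v l') else 0)
              = 0 := by
            intro b
            split_ifs with hb
            · by_cases hbc : b = c
              · subst hbc
                refine hf.zero_of_mem (e := s(b, Equiv.swap b v b)) (by simp) (a := v) ?_ hv
                simp
              · apply hf.zero_of_not
                intro hM
                rw [isM_cons] at hM
                have h6 := hM.2.1 (Sym2.map (Equiv.swap b v) e)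
                  (by unfold sw; exact List.mem_map_of_mem hel)
                have h7 : Equiv.swap b v c = c :=
                  Equiv.swap_apply_of_ne_of_ne (Ne.symm hbc) hcv
                refine h6 c (by simp [h7]) ?_
                rw [mem_swap_map, h7]
                exact hce
            · rfl
          rw [Finset.sum_congr rfl fun b _ => h5 b]
          rw [Finset.sum_congr rfl fun x _ => h4 x]
          simp only [Finset.sum_const_zero, add_zero]
          exact h3.symm
        · have hcl' : ∀ e ∈ l', c ∉ e := fun e he hce => hcl ⟨e, he, hce⟩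
          have h3 : restr c (fun l => ∑ x : Sym2 α, f (x :: l)) l' = ∑ x : Sym2 α, f (x :: l') := by
            unfold restr
            rw [if_pos hcl']
          have h4 : ∀ x : Sym2 α, restr c f (x :: l') = if c ∉ x then f (x :: l') else 0 := by
            intro x
            unfold restr
            by_cases hcx : c ∈ x
            · rw [if_neg, if_neg]
              · simpa using hcx
              · intro h
                exact h x (by simp) hcx
            · rw [if_pos, if_pos hcx]
              intro e he
              rw [List.mem_cons] at he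
              rcases he with rfl | he
              · exact hcx
              · exact hcl' e he
          have h5 : ∀ b : α, (if b ∈ A then f (s(b, Equiv.swap b v c) :: sw b v l') else 0)
              = f (s(c, b) :: l') := by
            intro b
            split_ifs with hb
            · by_cases hbc : b = c
              · subst hbc
                rw [hf.zero_of_mem (e := s(b, Equiv.swap b v b)) (by simp) (a := v) (by simp) hv]
                symm
                apply hf.zero_of_not
                intro hM
                rw [isM_cons] at hM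
                exact hM.1.1 (by simp)
              · have h7 : Equiv.swap b v c = c :=
                  Equiv.swap_apply_of_ne_of_ne (Ne.symm hbc) hcv
                rw [h7, Sym2.eq_swap]
                by_cases hbl : ∃ e ∈ l', b ∈ e
                · obtain ⟨e, hel, hbe⟩ := hbl
                  have h8 : f (s(c, b) :: sw b v l') = 0 := by
                    refine hf.zero_of_mem (e := Sym2.map (Equiv.swap b v) e) ?_ (a := v) ?_ hv
                    · rw [List.mem_cons]
                      right
                      unfold sw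
                      exact List.mem_map_of_mem hel
                    · rw [mem_swap_map, Equiv.swap_apply_right]
                      exact hbe
                  rw [h8]
                  symm
                  apply hf.zero_of_not
                  intro hM
                  rw [isM_cons] at hM
                  exact hM.2.1 e hel b (by simp) hbe
                · have hbl' : ∀ e ∈ l', b ∉ e := fun e he hbe => hbl ⟨e, he, hbe⟩
                  by_cases hvl : ∃ e ∈ l', v ∈ e
                  · obtain ⟨e, hel, hve⟩ := hvl
                    have h9 : f (s(c, b) :: l') = 0 :=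
                      hf.zero_of_mem (e := e) (by simp [hel]) hve hv
                    rw [h9]
                    apply hf.zero_of_not
                    intro hM
                    rw [isM_cons] at hM
                    refine hM.2.1 (Sym2.map (Equiv.swap b v) e)
                      (by unfold sw; exact List.mem_map_of_mem hel) b (by simp) ?_
                    rw [mem_swap_map, Equiv.swap_apply_left]
                    exact hve
                  · have hvl' : ∀ e ∈ l', v ∉ e := fun e he hbe => hvl ⟨e, he, hbe⟩
                    rw [sw_eq_self hbl' hvl']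
            · symm
              exact hf.zero_of_mem (e := s(c, b)) (by simp) (a := b) (by simp) hb
          rw [Finset.sum_congr rfl fun b _ => h5 b]
          have h6 : ∑ x ∈ (Finset.univ.filter fun x : Sym2 α => w ∉ x), restr c f (x :: l')
              = ∑ x ∈ (Finset.univ.filter fun x : Sym2 α => c ∉ x), f (x :: l') := by
            rw [Finset.sum_filter, Finset.sum_filter]
            refine Finset.sum_congr rfl fun x _ => ?_
            rw [h4]
            by_cases hwx : w ∈ x
            · have h7 : f (x :: l') = 0 :=
                hf.zero_of_mem (e := x) (by simp) hwx hw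
              simp [h7]
            · simp [hwx]
          rw [h6]
          rw [← sum_split c (fun x => f (x :: l'))]
          exact h3.symm
      · simp only [if_neg hcA]
        have h5 : ∀ b : α, (if b ∈ A then f (s(b, Equiv.swap b v c) :: sw b v l') else 0)
              = 0 := by
          intro b
          split_ifs with hb
          · by_cases hcv : c = v
            · subst hcv
              apply hf.zero_of_not
              intro hM
              rw [isM_cons] at hM
              exact hM.1.1 (by simp)
            · have hbc : c ≠ b := fun h => hcA (h ▸ hb)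
              rw [Equiv.swap_apply_of_ne_of_ne hbc hcv]
              exact hf.zero_of_mem (e := s(b, c)) (by simp) (a := c) (by simp) hcA
          · rfl
        rw [Finset.sum_congr rfl fun b _ => h5 b]
        simp
    · have hvl : ∀ e ∈ l, v ∉ e := fun e he hve => hv1 ⟨e, he, hve⟩
      rw [Y_none l hwl hvl, neg_zero]
      unfold bd
      rw [sum_split w]
      have h1 : ∀ b : α, Y A v w f (s(w, b) :: l) = if b ∈ A then f (sw b v l) else 0 :=
        fun b => Y_w hv hw hvw hf b l
      rw [Finset.sum_congr rfl fun b _ => h1 b]
      have h2 : ∑ x ∈ (Finset.univ.filter fun x : Sym2 α => w ∉ x), Y A v w f (x :: l)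
          = ∑ x, (if w ∉ x then Y A v w f (x :: l) else 0) := by
        rw [Finset.sum_filter]
      rw [h2, sum_split v]
      have h3 : ∀ c : α, (if w ∉ s(v, c) then Y A v w f (s(v, c) :: l) else 0)
          = - if c ∈ A then restr c f l else 0 := by
        intro c
        by_cases hcw : c = w
        · subst hcw
          simp [hw]
        · rw [if_pos, Y_v hv hw hvw hf c hcw l hwl]
          simp only [Sym2.mem_iff, not_or]
          exact ⟨Ne.symm hvw, Ne.symm hcw⟩
      rw [Finset.sum_congr rfl fun b _ => h3 b]
      have h4 : ∀ x ∈ (Finset.univ.filter fun x : Sym2 α => v ∉ x),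
          (if w ∉ x then Y A v w f (x :: l) else 0) = 0 := by
        intro x hx
        simp only [Finset.mem_filter, Finset.mem_univ, true_and] at hx
        split_ifs with hwx
        · rfl
        · apply Y_none
          · intro e he
            rw [List.mem_cons] at he
            rcases he with rfl | he
            · exact hwx
            · exact hwl e he
          · intro e he
            rw [List.mem_cons] at he
            rcases he with rfl | he
            · exact hx
            · exact hvl e he
      rw [Finset.sum_congr rfl h4, Finset.sum_const_zero, add_zero, ← Finset.sum_add_distrib]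
      refine Finset.sum_eq_zero fun b _ => ?_
      split_ifs with hb
      · unfold restr
        split_ifs with hbl
        · rw [sw_eq_self hbl hvl]
          ring
        · push Not at hbl
          obtain ⟨e, hel, hbe⟩ := hbl
          rw [neg_zero, add_zero]
          refine hf.zero_of_mem (e := Sym2.map (Equiv.swap b v) e) ?_ (a := v) ?_ hv
          · unfold sw
            exact List.mem_map_of_mem hel
          · rw [mem_swap_map, Equiv.swap_apply_right]
            exact hbe
      · simp

/-- the one-sided inverse of `Y` -/
def R (b v w : α) (g : List (Sym2 α) → ℤ) (l : List (Sym2 α)) : ℤ := g (s(w, b) :: sw b v l)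

theorem isC_R (hv : v ∉ A) (hw : w ∉ A) (hvw : v ≠ w) {b : α} (hb : b ∈ A)
    {g : List (Sym2 α) → ℤ} (hg : IsC (insert v (insert w A)) (r + 1) g) :
    IsC A r (R b v w g) := by
  refine ⟨(hg.alt.cons _).map _, fun l hl => ?_⟩
  unfold R at hl
  obtain ⟨h1, h2⟩ := hg.supp _ hl
  refine ⟨?_, by simpa [sw] using h2⟩
  rw [isM_cons] at h1
  have hbw : b ≠ w := fun h => hw (h ▸ hb)
  have hbv : b ≠ v := fun h => hv (h ▸ hb)
  have h3 : ∀ e ∈ l, ∀ a ∈ e, a ∈ A := by
    intro e he a ha
    have h4 : Sym2.map (Equiv.swap b v) e ∈ sw b v l := by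
      unfold sw
      exact List.mem_map_of_mem he
    have h5 : Equiv.swap b v a ∈ Sym2.map (Equiv.swap b v) e := by
      rw [mem_swap_map]
      simpa using ha
    have h6 := (h1.2.2.1 _ h4).2 _ h5
    have h7 : w ∉ Sym2.map (Equiv.swap b v) e := h1.2.1 _ h4 w (by simp)
    have h8 : b ∉ Sym2.map (Equiv.swap b v) e := h1.2.1 _ h4 b (by simp)
    by_cases hab : a = b
    · rw [hab]; exact hb
    · by_cases hav : a = v
      · exfalso
        rw [hav, Equiv.swap_apply_right] at h5
        exact h8 h5
      · rw [Equiv.swap_apply_of_ne_of_ne hab hav] at h5 h6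
        simp only [Finset.mem_insert] at h6
        rcases h6 with h6 | h6 | h6
        · exact absurd h6 hav
        · exfalso
          rw [h6] at h5
          exact h7 h5
        · exact h6
  have h9 := h1.2.2.map (Equiv.swap b v) (Equiv.swap b v).injective (Finset.univ) (by simp)
  have h10 := sw_sw b v l
  unfold sw at h9 h10
  rw [h10] at h9
  exact ⟨fun e he => ⟨(h9.1 e he).1, h3 e he⟩, h9.2⟩

theorem R_bd (b v w : α) {g : List (Sym2 α) → ℤ} (hg : Alt g) (l : List (Sym2 α)) :
    R b v w (bd g) l = - bd (R b v w g) l := by
  unfold R bd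
  rw [← Finset.sum_neg_distrib]
  have h1 : ∀ x : Sym2 α, g (x :: s(w, b) :: sw b v l) = - g (s(w, b) :: x :: sw b v l) :=
    fun x => hg.head _ _ _
  rw [Finset.sum_congr rfl fun x _ => h1 x]
  rw [← sum_sw b v]
  rfl

theorem R_Y (hv : v ∉ A) (hw : w ∉ A) (hvw : v ≠ w) {b : α} (hb : b ∈ A)
    (hf : IsC A r f) (l : List (Sym2 α)) : R b v w (Y A v w f) l = f l := by
  unfold R
  rw [Y_w hv hw hvw hf, if_pos hb, sw_sw]

/-- Torsion of order five passes from `A` to `A` with two more vertices, one degree higher. -/
theorem HasTor.step (hv : v ∉ A) (hw : w ∉ A) (hvw : v ≠ w) (hA : A.Nonempty)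
    (h : HasTor A r) : HasTor (insert v (insert w A)) (r + 1) := by
  obtain ⟨b, hb⟩ := hA
  obtain ⟨z, u, hz, hu, hbd, hnot⟩ := h
  refine ⟨Y A v w z, fun l => - Y A v w u l, isC_Y hv hw hvw hz, (isC_Y hv hw hvw hu).neg,
    ?_, ?_⟩
  · intro l
    have h1 : bd (fun l => - Y A v w u l) l = - bd (Y A v w u) l := by
      unfold bd
      rw [Finset.sum_neg_distrib]
    rw [h1, bd_Y hv hw hvw hu, neg_neg]
    have h2 : bd u = fun l => 5 * z l := funext hbd
    rw [h2]
    unfold Y
    rw [Finset.mul_sum]
    refine Finset.sum_congr rfl fun c _ => ?_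
    rw [mul_sub, ← wedge_mul, ← wedge_mul]
    congr 1
    refine wedge_congr _ _ fun l' => ?_
    unfold restr
    split_ifs <;> simp
  · intro y hy hyz
    refine hnot (fun l => - R b v w y l) (isC_R hv hw hvw hb hy).neg ?_
    intro l
    have h1 : bd (fun l => - R b v w y l) l = - bd (R b v w y) l := by
      unfold bd
      rw [Finset.sum_neg_distrib]
    rw [h1, ← R_bd b v w hy.alt]
    have h2 : bd y = Y A v w z := funext hyz
    rw [h2, R_Y hv hw hvw hb hz]

end Sum

end Pool.Agent.Helper45.MC
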