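import Pool.Agent.Helper45.MC.Mono

set_option autoImplicit false
set_option linter.unusedSectionVars false
set_option linter.unusedVariables false

namespace Pool.Agent.Helper45.MC

open Finset

/-- seven blocks -/
abbrev Bl : Type := Fin 4 ⊕ Fin 3

/-- fourteen points, two in each block -/
abbrev Pt : Type := Bl × Bool

/-- the other point of the block -/
def fl (x : Pt) : Pt := (x.1, !x.2)

theorem fl_fl (x : Pt) : fl (fl x) = x := by simp [fl]

/-- the permutation of the points given by a permutation of the blocks and flips -/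
def wr (σ : Equiv.Perm Bl) (ε : Bl → Bool) : Equiv.Perm Pt where
  toFun x := (σ x.1, xor x.2 (ε x.1))
  invFun x := (σ.symm x.1, xor x.2 (ε (σ.symm x.1)))
  left_inv x := by simp
  right_inv x := by simp

theorem wr_apply (σ : Equiv.Perm Bl) (ε : Bl → Bool) (x : Pt) :
    wr σ ε x = (σ x.1, xor x.2 (ε x.1)) := rfl

theorem wr_mul (σ τ : Equiv.Perm Bl) (ε δ : Bl → Bool) :
    wr σ ε * wr τ δ = wr (σ * τ) (fun i => xor (δ i) (ε (τ i))) := by
  ext x
  · simp [wr_apply]
  · simp [wr_apply, Bool.xor_assoc]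

/-- permutations commuting with the flip -/
def InW (q : Equiv.Perm Pt) : Prop := ∀ x, q (fl x) = fl (q x)

theorem inW_wr (σ : Equiv.Perm Bl) (ε : Bl → Bool) : InW (wr σ ε) := by
  intro x
  simp [wr_apply, fl]

theorem InW.mul {p q : Equiv.Perm Pt} (hp : InW p) (hq : InW q) : InW (p * q) := by
  intro x
  rw [Equiv.Perm.mul_apply, Equiv.Perm.mul_apply, hq, hp]

theorem InW.inv {p : Equiv.Perm Pt} (hp : InW p) : InW p⁻¹ := by
  intro x
  apply p.injective
  rw [hp]
  simp

theorem inW_mul_left {p q : Equiv.Perm Pt} (hp : InW p) : InW (p * q) ↔ InW q := by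
  constructor
  · intro h
    have := hp.inv.mul h
    rwa [inv_mul_cancel_left] at this
  · intro h
    exact hp.mul h

theorem inW_mul_right {p q : Equiv.Perm Pt} (hq : InW q) : InW (p * q) ↔ InW p := by
  constructor
  · intro h
    have := h.mul hq.inv
    rwa [mul_inv_cancel_right] at this
  · intro h
    exact h.mul hq

theorem InW.block {q : Equiv.Perm Pt} (hq : InW q) {x y : Pt} (h : (q x).1 = (q y).1) :
    x.1 = y.1 := by
  by_cases h2 : (q x).2 = (q y).2
  · have : q x = q y := Prod.ext h h2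
    rw [q.injective this]
  · have : q (fl x) = q y := by
      rw [hq]
      refine Prod.ext h ?_
      simp only [fl]
      cases h3 : (q x).2 <;> cases h4 : (q y).2 <;> simp_all
    rw [← q.injective this]
    rfl

/-- action of a permutation of the points on lists of edges -/
def ac (g : Equiv.Perm Pt) (t : List (Sym2 Pt)) : List (Sym2 Pt) := t.map (Sym2.map g)

theorem ac_ac (g h : Equiv.Perm Pt) (t : List (Sym2 Pt)) : ac g (ac h t) = ac (g * h) t := by
  unfold ac
  rw [List.map_map]
  refine List.map_congr_left fun e _ => ?_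
  induction e with
  | h x y => simp

theorem ac_cons (g : Equiv.Perm Pt) (e : Sym2 Pt) (t : List (Sym2 Pt)) :
    ac g (e :: t) = Sym2.map g e :: ac g t := rfl

/-- index set of the group used for symmetrisation -/
abbrev Ix : Type := (Equiv.Perm (Fin 4) × Equiv.Perm (Fin 3)) × (Bl → Bool)

/-- the permutation of the blocks -/
def sg (k : Equiv.Perm (Fin 4) × Equiv.Perm (Fin 3)) : Equiv.Perm Bl := Equiv.sumCongr k.1 k.2

theorem sg_mul (k k' : Equiv.Perm (Fin 4) × Equiv.Perm (Fin 3)) : sg (k * k') = sg k * sg k' := by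
  ext x
  rcases x with x | x <;> simp [sg]

theorem sg_inv (k : Equiv.Perm (Fin 4) × Equiv.Perm (Fin 3)) (x : Bl) :
    sg k⁻¹ (sg k x) = x := by
  rcases x with x | x <;> simp [sg]

theorem sg_inv' (k : Equiv.Perm (Fin 4) × Equiv.Perm (Fin 3)) (x : Bl) :
    sg k (sg k⁻¹ x) = x := by
  rcases x with x | x <;> simp [sg]

/-- the permutation of the points given by an index -/
def tp (p : Ix) : Equiv.Perm Pt := wr (sg p.1) p.2

/-- right multiplication on the index set -/
def rm (h : Ix) : Ix ≃ Ix where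
  toFun p := (p.1 * h.1, fun i => xor (h.2 i) (p.2 (sg h.1 i)))
  invFun p := (p.1 * h.1⁻¹, fun i => xor (h.2 (sg h.1⁻¹ i)) (p.2 (sg h.1⁻¹ i)))
  left_inv p := by
    refine Prod.ext ?_ ?_
    · simp
    · funext i
      simp only
      rw [sg_inv', ← Bool.xor_assoc, Bool.xor_self, Bool.false_xor]
  right_inv p := by
    refine Prod.ext ?_ ?_
    · simp
    · funext i
      simp only
      rw [sg_inv, ← Bool.xor_assoc, Bool.xor_self, Bool.false_xor]

theorem tp_rm (h p : Ix) : tp (rm h p) = tp p * tp h := by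
  unfold tp
  rw [wr_mul, ← sg_mul]
  rfl

theorem card_Ix : Fintype.card Ix = 18432 := by
  simp only [Ix, Bl, Fintype.card_prod, Fintype.card_perm, Fintype.card_fin, Fintype.card_fun,
    Fintype.card_sum, Fintype.card_bool]
  rfl

/-- the symmetrised elementary chain -/
def Ss (t l : List (Sym2 Pt)) : ℤ := ∑ p : Ix, mono (ac (tp p) t) l

theorem Ss_ac (h : Ix) (t l : List (Sym2 Pt)) : Ss (ac (tp h) t) l = Ss t l := by
  unfold Ss
  refine Fintype.sum_equiv (rm h) _ _ fun p => ?_
  rw [ac_ac, tp_rm]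

theorem alt_Ss_left (l : List (Sym2 Pt)) : Alt (fun t => Ss t l) := by
  unfold Ss
  exact Alt.sum _ fun p _ => (alt_mono_left l).map (Sym2.map (tp p))

theorem isM_univ_ac {t : List (Sym2 Pt)} (g : Equiv.Perm Pt) (h : IsM Finset.univ t) :
    IsM Finset.univ (ac g t) :=
  h.map g g.injective Finset.univ (by simp)

theorem isC_mono {t : List (Sym2 Pt)} (h : IsM Finset.univ t) :
    IsC Finset.univ t.length (mono t) := by
  refine ⟨alt_mono t, fun l hl => ?_⟩
  have h1 := mono_ne_zero t l hl
  exact ⟨h.perm h1.symm, h1.length_eq⟩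

theorem isC_Ss {t : List (Sym2 Pt)} (h : IsM Finset.univ t) :
    IsC Finset.univ t.length (Ss t) := by
  unfold Ss
  refine IsC.sum _ fun p _ => ?_
  have h1 := isC_mono (isM_univ_ac (tp p) h)
  simpa [ac] using h1

theorem sum_listSum {ι κ : Type*} (s : Finset ι) (L : List κ) (f : ι → κ → ℤ) :
    ∑ i ∈ s, (L.map (fun q => f i q)).sum = (L.map (fun q => ∑ i ∈ s, f i q)).sum := by
  induction L with
  | nil => simp
  | cons a L ih =>
    simp only [List.map_cons, List.sum_cons]
    rw [Finset.sum_add_distrib, ih]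

theorem bd_Ss (t l : List (Sym2 Pt)) :
    bd (Ss t) l = ((faces t).map (fun p => p.1 * Ss p.2 l)).sum := by
  unfold bd Ss
  rw [Finset.sum_comm]
  have h1 : ∀ p : Ix, ∑ x : Sym2 Pt, mono (ac (tp p) t) (x :: l) =
      ((faces t).map (fun q => q.1 * mono (ac (tp p) q.2) l)).sum := by
    intro p
    rw [sum_mono]
    unfold ac
    rw [faces_map, List.map_map]
    rfl
  rw [Finset.sum_congr rfl fun p _ => h1 p]
  rw [sum_listSum]
  refine congrArg List.sum (List.map_congr_left fun p _ => ?_)
  rw [Finset.mul_sum]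

open Classical in
/-- the sum over the wreath product of the values of a function on the translates of a list -/
noncomputable def Pq (y : List (Sym2 Pt) → ℤ) (t : List (Sym2 Pt)) : ℤ :=
  ∑ q : Equiv.Perm Pt, if InW q then y (ac q t) else 0

theorem Pq_ac (y : List (Sym2 Pt) → ℤ) {g : Equiv.Perm Pt} (hg : InW g) (t : List (Sym2 Pt)) :
    Pq y (ac g t) = Pq y t := by
  unfold Pq
  refine Fintype.sum_equiv (Equiv.mulRight g) _ _ fun q => ?_
  simp only [Equiv.coe_mulRight]
  rw [ac_ac]
  by_cases h : InW q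
  · rw [if_pos h, if_pos ((inW_mul_right hg).2 h)]
  · rw [if_neg h, if_neg (fun h' => h ((inW_mul_right hg).1 h'))]

theorem Pq_left (y : List (Sym2 Pt) → ℤ) {g : Equiv.Perm Pt} (hg : InW g) (t : List (Sym2 Pt)) :
    Pq (fun l => y (ac g l)) t = Pq y t := by
  unfold Pq
  refine Fintype.sum_equiv (Equiv.mulLeft g) _ _ fun q => ?_
  simp only [Equiv.coe_mulLeft]
  rw [ac_ac]
  by_cases h : InW q
  · rw [if_pos h, if_pos ((inW_mul_left hg).2 h)]
  · rw [if_neg h, if_neg (fun h' => h ((inW_mul_left hg).1 h'))]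

theorem alt_Pq {y : List (Sym2 Pt) → ℤ} (hy : Alt y) : Alt (Pq y) := by
  unfold Pq
  refine Alt.sum _ fun q _ => ?_
  by_cases h : InW q
  · simp only [if_pos h]
    exact hy.map (Sym2.map q)
  · simp only [if_neg h]
    intro a x y b
    simp

theorem Pq_sum {ι : Type*} (s : Finset ι) (f : ι → List (Sym2 Pt) → ℤ) (t : List (Sym2 Pt)) :
    Pq (fun l => ∑ i ∈ s, f i l) t = ∑ i ∈ s, Pq (f i) t := by
  unfold Pq
  rw [Finset.sum_comm]
  refine Finset.sum_congr rfl fun q _ => ?_
  split_ifs <;> simp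

theorem Pq_mul (c : ℤ) (f : List (Sym2 Pt) → ℤ) (t : List (Sym2 Pt)) :
    Pq (fun l => c * f l) t = c * Pq f t := by
  unfold Pq
  rw [Finset.mul_sum]
  refine Finset.sum_congr rfl fun q _ => ?_
  split_ifs <;> simp

theorem mono_ac (g : Equiv.Perm Pt) (t l : List (Sym2 Pt)) : mono (ac g t) (ac g l) = mono t l :=
  mono_map (Sym2.map g) (Sym2.map.injective g.injective) t l

theorem Pq_mono_ac {g : Equiv.Perm Pt} (hg : InW g) (s t : List (Sym2 Pt)) :
    Pq (mono (ac g s)) t = Pq (mono s) t := by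
  rw [← Pq_left (mono (ac g s)) hg]
  congr 1
  funext l
  exact mono_ac g s l

theorem Pq_Ss (s t : List (Sym2 Pt)) : Pq (Ss s) t = 18432 * Pq (mono s) t := by
  have h1 : Ss s = fun l => ∑ p : Ix, mono (ac (tp p) s) l := rfl
  rw [h1, Pq_sum]
  have h2 : ∀ p : Ix, Pq (mono (ac (tp p) s)) t = Pq (mono s) t :=
    fun p => Pq_mono_ac (inW_wr _ _) s t
  rw [Finset.sum_congr rfl fun p _ => h2 p]
  rw [Finset.sum_const, Finset.card_univ, card_Ix]
  simp

theorem Pq_bd (y : List (Sym2 Pt) → ℤ) (t : List (Sym2 Pt)) :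
    Pq (bd y) t = ∑ x : Sym2 Pt, Pq y (x :: t) := by
  unfold Pq bd
  rw [Finset.sum_comm]
  refine Finset.sum_congr rfl fun q _ => ?_
  by_cases h : InW q
  · simp only [if_pos h]
    symm
    refine Function.Bijective.sum_comp (e := Sym2.map q) ?_ (fun x => y (x :: ac q t))
    exact Finite.injective_iff_bijective.1 (Sym2.map.injective q.injective)
  · simp [h]

/-- sums over a finite group of functions invariant under right translation by an element of
order five are divisible by five -/
theorem five_dvd_sum {G : Type*} [Group G] [Fintype G] (ρ : G) (hρ : orderOf ρ = 5)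
    (F : G → ℤ) (hF : ∀ q, F (q * ρ) = F q) : (5 : ℤ) ∣ ∑ q : G, F q := by
  classical
  have hpow : ∀ (n : ℕ) (q : G), F (q * ρ ^ n) = F q := by
    intro n
    induction n with
    | zero => intro q; simp
    | succ n ih => intro q; rw [pow_succ, ← mul_assoc, hF, ih]
  have hH : ∀ (h : Subgroup.zpowers ρ) (q : G), F (q * h) = F q := by
    intro h q
    obtain ⟨n, hn⟩ := (mem_powers_iff_mem_zpowers.2 h.2)
    simp only at hn
    rw [← hn, hpow]
  let e := Subgroup.groupEquivQuotientProdSubgroup (s := Subgroup.zpowers ρ)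
  have h1 : ∑ q : G, F q = ∑ c : (G ⧸ Subgroup.zpowers ρ) × Subgroup.zpowers ρ, F (e.symm c) :=
    (Fintype.sum_equiv e.symm _ _ fun c => rfl).symm
  rw [h1, Fintype.sum_prod_type]
  refine Finset.dvd_sum fun c _ => ?_
  have h2 : ∀ h : Subgroup.zpowers ρ, F (e.symm (c, h)) = F (e.symm (c, 1)) := by
    intro h
    have h3 : ∃ h' : Subgroup.zpowers ρ, e.symm (c, h) = e.symm (c, 1) * h' := by
      refine ⟨⟨(e.symm (c, 1))⁻¹ * e.symm (c, h), ?_⟩, by simp⟩
      rw [← QuotientGroup.eq]
      have h4 : ∀ d : (G ⧸ Subgroup.zpowers ρ) × Subgroup.zpowers ρ,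
          (QuotientGroup.mk (e.symm d) : G ⧸ Subgroup.zpowers ρ) = d.1 := by
        intro d
        have := e.apply_symm_apply d
        conv_rhs => rw [← this]
        rfl
      rw [h4, h4]
    obtain ⟨h', hh⟩ := h3
    rw [hh, hH]
  rw [Finset.sum_congr rfl fun h _ => h2 h, Finset.sum_const, Finset.card_univ]
  have h5 : Fintype.card (Subgroup.zpowers ρ) = 5 := by
    rw [Fintype.card_zpowers, hρ]
  rw [h5]
  exact ⟨F (e.symm (c, 1)), by simp⟩

end Pool.Agent.Helper45.MC
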